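import Pool.Agent.U430.SN.Mon

set_option autoImplicit false

/-!
The coefficient of `∏ x_a ^ 2` in the moment `g_{2n}`.
-/

namespace Pool.Agent.U430.SN

open Finset

variable {V : Type} [Fintype V] [DecidableEq V]

/-- the quadratic form of the edge from `a` to `σ a` -/
noncomputable def Qf (σ : Equiv.Perm V) (τ : V → V) (s : V → ℂ) (a : V) :
    MvPolynomial (V ⊕ V) ℂ :=
  MvPolynomial.C (s (τ a)) * (MvPolynomial.X (Sum.inl (τ a)) * MvPolynomial.X (Sum.inr (σ a))) -
  MvPolynomial.C (s (τ (σ a))) *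
    (MvPolynomial.X (Sum.inl (τ (σ a))) * MvPolynomial.X (Sum.inr a))

theorem L_map (p : MvPolynomial (V ⊕ V) ℂ) :
    L (MvPolynomial.map (MvPolynomial.C : ℂ →+* PR V) p) = MvPolynomial.C (L p) := by
  induction p using MvPolynomial.induction_on' with
  | monomial m c =>
    rw [MvPolynomial.map_monomial, L_monomial, L_monomial, map_mul, map_natCast]
  | add p q hp hq => rw [map_add, map_add, map_add, map_add, hp, hq]

theorem Cx_apply (σ : Equiv.Perm V) (τ : V → V) (s : V → ℂ) (u w : V) :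
    Cx σ τ s u w = MvPolynomial.C (s u) * ((if w = σ (τ u) then MvPolynomial.X (τ u) else 0) +
      -(if τ u = σ w then MvPolynomial.X w else 0)) := by
  rw [Cx, Matrix.mul_apply, Finset.sum_eq_single (τ u)]
  · rw [KM, Matrix.of_apply, if_pos rfl, KF, Matrix.of_apply]
  · intro c _ hc
    rw [KM, Matrix.of_apply, if_neg hc, zero_mul]
  · intro h
    exact absurd (mem_univ _) h

theorem Phi_eq {σ : Equiv.Perm V} {τ : V → V} {s : V → ℂ} (hτ : ∀ v, τ (τ v) = v) :
    Phi (Cx σ τ s) = ∑ a, (MvPolynomial.X a : PR V) •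
      MvPolynomial.map (MvPolynomial.C : ℂ →+* PR V) (Qf σ τ s a) := by
  have hinv : Function.Involutive τ := hτ
  set te : Equiv.Perm V := hinv.toPerm with hte
  have hte' : ∀ v, te v = τ v := fun v => rfl
  have h1 : Phi (Cx σ τ s) = (∑ u, (MvPolynomial.C (s u) * MvPolynomial.X (τ u) : PR V) •
      (MvPolynomial.X (Sum.inl u) * MvPolynomial.X (Sum.inr (σ (τ u))))) -
      ∑ w, (MvPolynomial.C (s (τ (σ w))) * MvPolynomial.X w : PR V) •
      (MvPolynomial.X (Sum.inl (τ (σ w))) * MvPolynomial.X (Sum.inr w)) := by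
    have e1 : Phi (Cx σ τ s) = (∑ u, ∑ w, (MvPolynomial.C (s u) *
        (if w = σ (τ u) then MvPolynomial.X (τ u) else 0) : PR V) •
        (MvPolynomial.X (Sum.inl u) * MvPolynomial.X (Sum.inr w))) -
        ∑ u, ∑ w, (MvPolynomial.C (s u) * (if τ u = σ w then MvPolynomial.X w else 0) : PR V) •
        (MvPolynomial.X (Sum.inl u) * MvPolynomial.X (Sum.inr w)) := by
      rw [Phi, ← Finset.sum_sub_distrib]
      refine Finset.sum_congr rfl fun u _ => ?_
      rw [← Finset.sum_sub_distrib]
      refine Finset.sum_congr rfl fun w _ => ?_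
      rw [Cx_apply, mul_add, mul_neg, add_smul, neg_smul, sub_eq_add_neg]
    have e2 : (∑ u, ∑ w, (MvPolynomial.C (s u) *
        (if w = σ (τ u) then MvPolynomial.X (τ u) else 0) : PR V) •
        (MvPolynomial.X (Sum.inl u) * MvPolynomial.X (Sum.inr w) :
          MvPolynomial (V ⊕ V) (PR V))) =
        ∑ u, (MvPolynomial.C (s u) * MvPolynomial.X (τ u) : PR V) •
      (MvPolynomial.X (Sum.inl u) * MvPolynomial.X (Sum.inr (σ (τ u)))) := by
      refine Finset.sum_congr rfl fun u _ => ?_
      rw [Finset.sum_eq_single (σ (τ u))]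
      · rw [if_pos rfl]
      · intro w _ hw
        rw [if_neg hw, mul_zero, zero_smul]
      · intro h
        exact absurd (mem_univ _) h
    have e3 : (∑ u, ∑ w, (MvPolynomial.C (s u) *
        (if τ u = σ w then MvPolynomial.X w else 0) : PR V) •
        (MvPolynomial.X (Sum.inl u) * MvPolynomial.X (Sum.inr w) :
          MvPolynomial (V ⊕ V) (PR V))) =
        ∑ w, (MvPolynomial.C (s (τ (σ w))) * MvPolynomial.X w : PR V) •
      (MvPolynomial.X (Sum.inl (τ (σ w))) * MvPolynomial.X (Sum.inr w)) := by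
      rw [Finset.sum_comm]
      refine Finset.sum_congr rfl fun w _ => ?_
      rw [Finset.sum_eq_single (τ (σ w))]
      · rw [if_pos (hτ _)]
      · intro u _ hu
        rw [if_neg, mul_zero, zero_smul]
        intro h
        exact hu (by rw [← h, hτ])
      · intro h
        exact absurd (mem_univ _) h
    rw [e1, e2, e3]
  rw [h1, ← Equiv.sum_comp te, ← Finset.sum_sub_distrib]
  refine Finset.sum_congr rfl fun a _ => ?_
  simp only [hte', hτ, Qf, map_sub, map_mul, MvPolynomial.map_C, MvPolynomial.map_X,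
    MvPolynomial.smul_eq_C_mul]
  ring

omit [DecidableEq V] in
/-- the exponent vector of a function -/
theorem prod_X_pow (k : V → ℕ) :
    ∏ a, (MvPolynomial.X a : PR V) ^ k a =
      MvPolynomial.monomial (Finsupp.equivFunOnFinite.symm k) 1 := by
  rw [MvPolynomial.monomial_eq, Finsupp.prod_fintype _ _ (fun _ => pow_zero _)]
  simp

theorem coeff_g {σ : Equiv.Perm V} {τ : V → V} {s : V → ℂ} (hτ : ∀ v, τ (τ v) = v) :
    MvPolynomial.coeff (Finsupp.equivFunOnFinite.symm (fun _ : V => 2))
      (g (Cx σ τ s) (∑ _a : V, 2)) =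
    (((∑ _a : V, 2).factorial : ℂ)⁻¹ * (Nat.multinomial univ (fun _ : V => 2) : ℂ)) *
      L (∏ a, Qf σ τ s a ^ 2) := by
  have h1 : L (Phi (Cx σ τ s) ^ (∑ _a : V, 2)) =
      ∑ k ∈ piAntidiag univ (∑ _a : V, 2), (Nat.multinomial univ k : PR V) *
        (MvPolynomial.monomial (Finsupp.equivFunOnFinite.symm k) 1 *
          MvPolynomial.C (L (∏ a, Qf σ τ s a ^ k a))) := by
    rw [Phi_eq hτ, Finset.sum_pow_eq_sum_piAntidiag, map_sum]
    refine Finset.sum_congr rfl fun k _ => ?_
    have h2 : (Nat.multinomial univ k : MvPolynomial (V ⊕ V) (PR V)) *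
        ∏ a, ((MvPolynomial.X a : PR V) •
          MvPolynomial.map (MvPolynomial.C : ℂ →+* PR V) (Qf σ τ s a)) ^ k a =
        ((Nat.multinomial univ k : PR V) *
          (MvPolynomial.monomial (Finsupp.equivFunOnFinite.symm k) 1)) •
          MvPolynomial.map (MvPolynomial.C : ℂ →+* PR V) (∏ a, Qf σ τ s a ^ k a) := by
      rw [← prod_X_pow, MvPolynomial.smul_eq_C_mul, map_mul, map_natCast, map_prod, map_prod,
        mul_assoc, ← Finset.prod_mul_distrib]
      congr 1
      refine Finset.prod_congr rfl fun a _ => ?_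
      rw [MvPolynomial.smul_eq_C_mul, mul_pow, map_pow, map_pow]
    rw [h2, map_smul, L_map, smul_eq_mul, mul_assoc]
  rw [g, h1, MvPolynomial.coeff_smul, MvPolynomial.coeff_sum,
    Finset.sum_eq_single (fun _ : V => 2)]
  · rw [← map_natCast (MvPolynomial.C : ℂ →+* PR V), MvPolynomial.coeff_C_mul, mul_comm
      (MvPolynomial.monomial _ _), MvPolynomial.coeff_C_mul, MvPolynomial.coeff_monomial,
      if_pos rfl, mul_one, Algebra.smul_def, ← mul_assoc]
    congr 2
    simp
  · intro k _ hk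
    rw [← map_natCast (MvPolynomial.C : ℂ →+* PR V), MvPolynomial.coeff_C_mul, mul_comm
      (MvPolynomial.monomial _ _), MvPolynomial.coeff_C_mul, MvPolynomial.coeff_monomial,
      if_neg, mul_zero, mul_zero]
    intro h
    exact hk (Finsupp.equivFunOnFinite.symm.injective h)
  · intro h
    exact absurd (mem_piAntidiag.2 ⟨rfl, fun _ _ => mem_univ _⟩) h

/-- if the functional is not zero on the product of the squares of the forms, then twice the
`2`-factor is a sum of `F`-parts of perfect matchings -/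
theorem two_mem {σ : Equiv.Perm V} {τ : V → V} {s : V → ℂ} (hτ : ∀ v, τ (τ v) = v)
    (hs : ∀ v, s (τ v) = - s v) (hs2 : ∀ v, s v * s v = 1)
    (h : L (∏ a, Qf σ τ s a ^ 2) ≠ 0) :
    Finsupp.equivFunOnFinite.symm (fun _ : V => 2) ∈ Mo σ τ := by
  apply g_mem hτ hs hs2 (∑ _a : V, 2)
  rw [coeff_g hτ]
  refine mul_ne_zero (mul_ne_zero (inv_ne_zero ?_) ?_) h
  · exact_mod_cast Nat.factorial_ne_zero _
  · have := Nat.multinomial_pos (univ : Finset V) (fun _ : V => 2)
    exact_mod_cast this.ne'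

end Pool.Agent.U430.SN
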