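import Pool.Agent.U430.SN.Local
import Pool.Agent.H126R2.CDC.Decomp

set_option autoImplicit false

/-!
From sums of perfect matchings to circuit covers.
-/

namespace Pool.Agent.U430.SN

open Finset Pool.Agent.H126R2.CDC

variable {B : Type} [Fintype B] [DecidableEq B]

/-- The cubic graph with vertex set `B × Bool`, the perfect matching edges `{(b, 0), (b, 1)}` and
the edges `{v, σ v}` of a `2`-factor. -/
def Gr (σ : Equiv.Perm (B × Bool)) : MGraph (B × Bool) (B ⊕ B × Bool) :=
  ⟨Sum.elim (fun b => s((b, false), (b, true))) (fun v => s(v, σ v))⟩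

theorem ep_mk {V E : Type} [Fintype V] [DecidableEq V] [Fintype E] [DecidableEq E]
    (G : MGraph V E) (e : E) (x y : V) (h : G.ends e = s(x, y)) (v : V) :
    G.ep e v = (if x = v then 1 else 0) + (if y = v then 1 else 0) := by
  unfold MGraph.ep
  rw [h]
  by_cases hx : x = v
  · by_cases hy : y = v
    · simp [hx, hy]
    · have h2 : ¬ s(x, y) = s(v, v) := by
        intro h3
        rw [Sym2.eq_iff] at h3
        rcases h3 with ⟨_, h4⟩ | ⟨_, h4⟩ <;> exact hy h4
      simp [hx, hy]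
  · by_cases hy : y = v
    · have h2 : ¬ s(x, y) = s(v, v) := by
        intro h3
        rw [Sym2.eq_iff] at h3
        rcases h3 with ⟨h4, _⟩ | ⟨h4, _⟩ <;> exact hx h4
      simp [hx, hy]
    · have h2 : ¬ s(x, y) = s(v, v) := by
        intro h3
        rw [Sym2.eq_iff] at h3
        rcases h3 with ⟨h4, _⟩ | ⟨h4, _⟩ <;> exact hx h4
      have h3 : ¬ v ∈ s(x, y) := by
        rw [Sym2.mem_iff]
        rintro (h | h)
        · exact hx h.symm
        · exact hy h.symm
      simp [hx, hy, h2, h3]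

theorem deg_Gr (σ : Equiv.Perm (B × Bool)) (D : Finset (B ⊕ B × Bool)) (v : B × Bool) :
    (Gr σ).deg D v = (if Sum.inl v.1 ∈ D then 1 else 0) + (if Sum.inr v ∈ D then 1 else 0) +
      (if Sum.inr (σ⁻¹ v) ∈ D then 1 else 0) := by
  rw [MGraph.deg_eq_sum, ← Fintype.sum_ite_mem, Fintype.sum_sum_type]
  have h1 : ∀ b : B, (if Sum.inl b ∈ D then (Gr σ).ep (Sum.inl b) v else 0) =
      if b = v.1 then (if Sum.inl v.1 ∈ D then 1 else 0) else 0 := by
    intro b
    rw [ep_mk (Gr σ) (Sum.inl b) (b, false) (b, true) rfl]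
    rcases v with ⟨c, x⟩
    by_cases hb : b = c
    · subst hb
      cases x <;> simp
    · simp [hb]
  have h2 : ∀ w : B × Bool, (if Sum.inr w ∈ D then (Gr σ).ep (Sum.inr w) v else 0) =
      (if w = v then (if Sum.inr v ∈ D then 1 else 0) else 0) +
      (if w = σ⁻¹ v then (if Sum.inr (σ⁻¹ v) ∈ D then 1 else 0) else 0) := by
    intro w
    rw [ep_mk (Gr σ) (Sum.inr w) w (σ w) rfl]
    have e1 : (if σ w = v then 1 else 0 : ℕ) = if w = σ⁻¹ v then 1 else 0 := by
      have : σ w = v ↔ w = σ⁻¹ v := by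
        rw [Equiv.Perm.eq_inv_iff_eq]
      simp only [this]
    rw [e1]
    by_cases h3 : w = v
    · by_cases h4 : w = σ⁻¹ v
      · rw [← h4, h3]; simp
        split_ifs <;> rfl
      · rw [if_neg h4, if_neg h4, h3]
        simp
    · by_cases h4 : w = σ⁻¹ v
      · rw [← h4, if_neg h3]; simp [h3]
      · rw [if_neg h3, if_neg h4, if_neg h3, if_neg h4]
        simp
  simp only [h1, h2]
  rw [Finset.sum_add_distrib]
  simp only [Finset.sum_ite_eq', Finset.mem_univ, if_true]
  ring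

/-- `ξ` is realised by a family of circuits -/
def Cov (σ : Equiv.Perm (B × Bool)) (ξ : B × Bool →₀ ℕ) : Prop :=
  ∃ F : Multiset (Finset (B ⊕ B × Bool)), (∀ C ∈ F, (Gr σ).IsCircuit C) ∧
    (∀ b, F.countP (fun C => Sum.inl b ∈ C) = ξ (b, false) + ξ (σ⁻¹ (b, false))) ∧
    ∀ v, F.countP (fun C => Sum.inr v ∈ C) = ξ v

theorem cov_of_PMon {σ : Equiv.Perm (B × Bool)} {ξ : B × Bool →₀ ℕ} (h : PMon σ ta univ ξ) :
    Cov σ ξ := by
  obtain ⟨A, S, h1, h2, h3⟩ := h
  have h3' : ∀ w, (if w ∈ S then 1 else 0) + (if w ∈ A then 1 else 0) +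
      (if σ⁻¹ w ∈ A then 1 else 0) = 1 := by
    intro w
    rw [h3 w, if_pos (mem_univ _)]
  have hS : ∀ v : B × Bool, v ∈ S ↔ (v.1, false) ∈ S := by
    rintro ⟨b, x⟩
    cases x
    · exact Iff.rfl
    · constructor
      · intro h
        exact h2 _ h
      · intro h
        exact h2 _ h
  set D : Finset (B ⊕ B × Bool) :=
    (univ.filter (fun b : B => (b, false) ∉ S)).disjSum A with hD
  have hl : ∀ b : B, Sum.inl b ∈ D ↔ (b, false) ∉ S := by
    intro b
    rw [hD, Finset.inl_mem_disjSum, mem_filter]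
    simp
  have hr : ∀ v : B × Bool, Sum.inr v ∈ D ↔ v ∈ A := by
    intro v
    rw [hD, Finset.inr_mem_disjSum]
  have hev : (Gr σ).IsEven D := by
    intro v
    rw [deg_Gr]
    simp only [hl, hr, ← hS v]
    have := h3' v
    by_cases hv : v ∈ S
    · rw [if_pos hv] at this
      rw [if_neg (not_not.2 hv), zero_add]
      have h0 : (if v ∈ A then 1 else 0) + (if σ⁻¹ v ∈ A then 1 else 0) = 0 := by omega
      rw [h0]
      exact ⟨0, rfl⟩
    · rw [if_neg hv] at this
      rw [if_pos hv]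
      have h0 : (if v ∈ A then 1 else 0) + (if σ⁻¹ v ∈ A then 1 else 0) = 1 := by omega
      rw [add_assoc, h0]
      exact ⟨1, rfl⟩
  obtain ⟨F, hF1, hF2⟩ := MGraph.decompose (Gr σ) D.card D rfl hev
  refine ⟨F, hF1, ?_, ?_⟩
  · intro b
    rw [hF2, h1, ex_apply, ex_apply]
    have := h3' (b, false)
    simp only [hl]
    by_cases hv : (b, false) ∈ S
    · rw [if_pos hv] at this
      rw [if_neg (not_not.2 hv)]
      omega
    · rw [if_neg hv] at this
      rw [if_pos hv]
      omega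
  · intro v
    rw [hF2, h1, ex_apply]
    simp only [hr]

theorem cov_of_mem {σ : Equiv.Perm (B × Bool)} {ξ : B × Bool →₀ ℕ} (h : ξ ∈ Mo σ ta) :
    Cov σ ξ := by
  induction h using AddSubmonoid.closure_induction with
  | mem ξ h => exact cov_of_PMon h
  | zero => exact ⟨0, by simp, by simp, by simp⟩
  | add ξ η _ _ h1 h2 =>
    obtain ⟨F, f1, f2, f3⟩ := h1
    obtain ⟨F', f1', f2', f3'⟩ := h2
    refine ⟨F + F', ?_, ?_, ?_⟩
    · intro C hC
      rcases Multiset.mem_add.1 hC with h | h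
      · exact f1 C h
      · exact f1' C h
    · intro b
      rw [Multiset.countP_add, f2, f2', Finsupp.add_apply, Finsupp.add_apply]
      ring
    · intro v
      rw [Multiset.countP_add, f3, f3', Finsupp.add_apply]

/-- a non-zero state sum gives a circuit cover of the weight `4` on the matching and `2` on the
`2`-factor -/
theorem cover_of_Wt (σ : Equiv.Perm (B × Bool)) (h : Wt σ ≠ 0) :
    ∃ F : Multiset (Finset (B ⊕ B × Bool)), (∀ C ∈ F, (Gr σ).IsCircuit C) ∧
      (∀ b, F.countP (fun C => Sum.inl b ∈ C) = 4) ∧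
      ∀ v, F.countP (fun C => Sum.inr v ∈ C) = 2 := by
  obtain ⟨F, f1, f2, f3⟩ := cov_of_mem (two_mem_of_Wt σ h)
  exact ⟨F, f1, fun b => by rw [f2]; rfl, fun v => by rw [f3]; rfl⟩

end Pool.Agent.U430.SN
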