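import Pool.Agent.U430.SN.Wick

set_option autoImplicit false

/-! `(∑ g_s X^s) * det (1 - X C) = 1`. -/

namespace Pool.Agent.U430.SN

open Finset PowerSeries

variable {V : Type} [Fintype V] [DecidableEq V] {R : Type} [CommRing R] [Algebra ℚ R]

noncomputable def Gs (C : Matrix V V R) : R⟦X⟧ := PowerSeries.mk (g C)

noncomputable def Ys (C : Matrix V V R) : Matrix V V R⟦X⟧ :=
  Matrix.of fun j i => PowerSeries.mk fun s => Y2 C s j i

omit [Algebra ℚ R] in
variable (V) in
/-- the constant matrix -/
noncomputable def Cm (C : Matrix V V R) : Matrix V V R⟦X⟧ := C.map (PowerSeries.C (R := R))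

noncomputable def N1 (C : Matrix V V R) : Matrix V V R⟦X⟧ := 1 - (X : R⟦X⟧) • Cm V C

theorem N1_mul_Ys (C : Matrix V V R) : N1 C * Ys C = Gs C • (1 : Matrix V V R⟦X⟧) := by
  have h1 : N1 C * Ys C = Ys C - (X : R⟦X⟧) • (Cm V C * Ys C) := by
    rw [N1, sub_mul, one_mul, smul_mul_assoc]
  rw [h1]
  ext j i s
  rw [Matrix.sub_apply, Matrix.smul_apply, Matrix.smul_apply, smul_eq_mul, smul_eq_mul,
    Matrix.one_apply, Matrix.mul_apply]
  have h2 : PowerSeries.coeff s (Gs C * (if j = i then 1 else 0)) = if j = i then g C s else 0 := by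
    split_ifs
    · rw [mul_one, Gs, PowerSeries.coeff_mk]
    · rw [mul_zero, map_zero]
  rw [h2, map_sub]
  cases s with
  | zero =>
    rw [PowerSeries.coeff_zero_X_mul, sub_zero, Ys, Matrix.of_apply, PowerSeries.coeff_mk, Y2_zero,
      g_zero]
  | succ s =>
    rw [PowerSeries.coeff_succ_X_mul, map_sum, Ys, Matrix.of_apply, PowerSeries.coeff_mk, Y2_succ,
      sub_eq_iff_eq_add]
    congr 1
    refine Finset.sum_congr rfl fun w _ => ?_
    rw [Cm, Matrix.map_apply, PowerSeries.coeff_C_mul, Matrix.of_apply, PowerSeries.coeff_mk]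

theorem deriv_Gs (C : Matrix V V R) : d⁄dX R (Gs C) = (Cm V C * Ys C).trace := by
  ext s
  rw [PowerSeries.coeff_derivative, Gs, PowerSeries.coeff_mk, Matrix.trace, map_sum]
  have h := g_succ C s
  push_cast at h
  rw [mul_comm, h]
  refine Finset.sum_congr rfl fun u _ => ?_
  rw [Matrix.diag_apply, Matrix.mul_apply, map_sum]
  refine Finset.sum_congr rfl fun w _ => ?_
  rw [Cm, Matrix.map_apply, PowerSeries.coeff_C_mul, Ys, Matrix.of_apply, PowerSeries.coeff_mk]

theorem deriv_det (C : Matrix V V R) :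
    d⁄dX R (N1 C).det = - (Cm V C * (N1 C).adjugate).trace := by
  rw [ParrySullivan.derivation_det]
  have h : (N1 C).map (d⁄dX R) = - Cm V C := by
    ext i j : 1
    rw [Matrix.map_apply, N1, Matrix.sub_apply, Matrix.smul_apply, Matrix.neg_apply, map_sub,
      smul_eq_mul, Derivation.leibniz, Cm, Matrix.map_apply, PowerSeries.derivative_C,
      PowerSeries.derivative_X, Matrix.one_apply]
    split_ifs <;> simp
  rw [h, mul_neg, Matrix.trace_neg, Matrix.trace_mul_comm]

theorem det_mul_Gs [IsAddTorsionFree R] (C : Matrix V V R) : (N1 C).det * Gs C = 1 := by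
  have h1 : (N1 C).det • Ys C = Gs C • (N1 C).adjugate := by
    have h : (N1 C).adjugate * (N1 C * Ys C) = (N1 C).adjugate * (Gs C • 1) := by
      rw [N1_mul_Ys]
    rw [← mul_assoc, Matrix.adjugate_mul, smul_mul_assoc, one_mul, mul_smul_comm, mul_one] at h
    exact h
  apply PowerSeries.derivative.ext
  · rw [PowerSeries.derivative_one, Derivation.leibniz, deriv_Gs, deriv_det, smul_eq_mul,
      smul_eq_mul]
    have h2 : (N1 C).det * (Cm V C * Ys C).trace = Gs C * (Cm V C * (N1 C).adjugate).trace := by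
      rw [← smul_eq_mul, ← Matrix.trace_smul, ← mul_smul_comm, h1, mul_smul_comm,
        Matrix.trace_smul, smul_eq_mul]
    rw [h2]
    ring
  · rw [map_mul, map_one]
    have h3 : PowerSeries.constantCoeff (Gs C) = 1 := by
      rw [← PowerSeries.coeff_zero_eq_constantCoeff_apply, Gs, PowerSeries.coeff_mk, g_zero]
    have h4 : PowerSeries.constantCoeff (N1 C).det = 1 := by
      rw [RingHom.map_det]
      have : (PowerSeries.constantCoeff (R := R)).mapMatrix (N1 C) = 1 := by
        ext i j
        rw [RingHom.mapMatrix_apply, Matrix.map_apply, N1, Matrix.sub_apply, Matrix.smul_apply,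
          smul_eq_mul, map_sub, map_mul, PowerSeries.constantCoeff_X, zero_mul, sub_zero,
          Matrix.one_apply, Matrix.one_apply]
        split_ifs <;> simp
      rw [this, Matrix.det_one]
    rw [h3, h4, one_mul]

end Pool.Agent.U430.SN
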