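import Pool.Agent.U430.SN.Cover

set_option autoImplicit false

/-!
The state sum modulo a power of three.
-/

namespace Pool.Agent.U430.SN

open Finset

variable {B : Type} [Fintype B] [DecidableEq B]

/-- `A` is a forest of the graph obtained by contracting the cycles of the `2`-factor: for every
nonempty subset `A'` of `A` some cycle contains exactly one end of the edges in `A'`. -/
def IsForest (σ : Equiv.Perm (B × Bool)) (A : Finset B) : Prop :=
  ∀ A' ⊆ A, A'.Nonempty → ∃ v : B × Bool,
    Nat.card {w : B × Bool // w.1 ∈ A' ∧ σ.SameCycle v w} = 1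

omit [Fintype B] [DecidableEq B] in
theorem IsForest.mono {σ : Equiv.Perm (B × Bool)} {A A' : Finset B} (h : IsForest σ A)
    (hA : A' ⊆ A) : IsForest σ A' := fun C hC hne => h C (hC.trans hA) hne

/-- colourings that are constant on the cycles of the `2`-factor -/
def U0 (σ : Equiv.Perm (B × Bool)) : AddSubgroup (B × Bool → ZMod 3) where
  carrier := {c | ∀ v, c (σ⁻¹ v) = c v}
  zero_mem' := fun _ => rfl
  add_mem' := by
    intro a b ha hb v
    simp only [Pi.add_apply, ha v, hb v]
  neg_mem' := by
    intro a ha v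
    simp only [Pi.neg_apply, ha v]

/-- differences at the ends of the edges in `A` -/
def psi (σ : Equiv.Perm (B × Bool)) (A : Finset B) : U0 σ →+ (A → ZMod 3) where
  toFun c := fun b => c.1 (b.1, false) - c.1 (b.1, true)
  map_zero' := by
    ext b
    simp
  map_add' := by
    intro c d
    ext b
    simp only [AddSubgroup.coe_add, Pi.add_apply]
    ring

/-- colourings that are constant on the components of the `2`-factor with the edges in `A` -/
def UA (σ : Equiv.Perm (B × Bool)) (A : Finset B) : AddSubgroup (B × Bool → ZMod 3) where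
  carrier := {c | (∀ v, c (σ⁻¹ v) = c v) ∧ ∀ b ∈ A, c (b, false) = c (b, true)}
  zero_mem' := ⟨fun _ => rfl, fun _ _ => rfl⟩
  add_mem' := by
    rintro a b ⟨ha, ha'⟩ ⟨hb, hb'⟩
    refine ⟨fun v => ?_, fun e he => ?_⟩
    · simp only [Pi.add_apply, ha v, hb v]
    · simp only [Pi.add_apply, ha' e he, hb' e he]
  neg_mem' := by
    rintro a ⟨ha, ha'⟩
    refine ⟨fun v => ?_, fun e he => ?_⟩
    · simp only [Pi.neg_apply, ha v]
    · simp only [Pi.neg_apply, ha' e he]

theorem card_UA (σ : Equiv.Perm (B × Bool)) (A : Finset B) :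
    3 ^ A.card * Nat.card (UA σ A) = Nat.card (U0 σ) * (psi σ A).range.index := by
  have h1 : Nat.card (UA σ A) = Nat.card (psi σ A).ker := by
    refine Nat.card_congr ⟨fun c => ⟨⟨c.1, c.2.1⟩, ?_⟩, fun c => ⟨c.1.1, c.1.2, ?_⟩, ?_, ?_⟩
    · rw [AddMonoidHom.mem_ker]
      ext b
      change c.1 (b.1, false) - c.1 (b.1, true) = 0
      rw [c.2.2 b.1 b.2, sub_self]
    · intro b hb
      have h := c.2
      rw [AddMonoidHom.mem_ker] at h
      have h2 := congrFun h ⟨b, hb⟩
      exact sub_eq_zero.1 h2
    · intro c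
      rfl
    · intro c
      rfl
  have h2 := AddSubgroup.card_mul_index (psi σ A).ker
  rw [AddSubgroup.index_ker] at h2
  have h3 := AddSubgroup.card_mul_index (psi σ A).range
  have h4 : Nat.card (A → ZMod 3) = 3 ^ A.card := by
    rw [Nat.card_eq_fintype_card, Fintype.card_fun, Fintype.card_coe, ZMod.card]
  rw [h4] at h3
  rw [h1, ← h2, ← h3]
  ring

theorem index_dvd (σ : Equiv.Perm (B × Bool)) (A : Finset B) :
    (psi σ A).range.index ∣ 3 ^ A.card := by
  have h3 := AddSubgroup.card_mul_index (psi σ A).range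
  have h4 : Nat.card (A → ZMod 3) = 3 ^ A.card := by
    rw [Nat.card_eq_fintype_card, Fintype.card_fun, Fintype.card_coe, ZMod.card]
  rw [h4] at h3
  exact ⟨_, by rw [← h3, mul_comm]⟩

theorem forest_solve (σ : Equiv.Perm (B × Bool)) : ∀ (n : ℕ) (A : Finset B), A.card = n →
    IsForest σ A → ∀ y : B → ZMod 3, ∃ c ∈ U0 σ, ∀ b ∈ A, c (b, false) - c (b, true) = y b := by
  classical
  intro n
  induction n with
  | zero =>
    intro A hA _ y
    rw [Finset.card_eq_zero] at hA
    subst hA
    exact ⟨0, (U0 σ).zero_mem, by simp⟩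
  | succ n ih =>
    intro A hA hF y
    obtain ⟨v, hv⟩ := hF A (subset_refl _) (by rw [← Finset.card_pos]; omega)
    rw [Nat.card_eq_one_iff_exists] at hv
    obtain ⟨⟨⟨b0, x0⟩, hb0, hw0⟩, huniq⟩ := hv
    simp only at hb0
    have huniq' : ∀ b x, b ∈ A → σ.SameCycle v (b, x) → b = b0 ∧ x = x0 := by
      intro b x hb hs
      have h := huniq ⟨(b, x), hb, hs⟩
      rw [Subtype.mk.injEq, Prod.mk.injEq] at h
      exact h
    obtain ⟨c, hc, hc2⟩ := ih (A.erase b0) (by rw [Finset.card_erase_of_mem hb0]; omega)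
      (hF.mono (Finset.erase_subset _ _)) y
    set one : B × Bool → ZMod 3 := fun w => if σ.SameCycle v w then 1 else 0 with hone
    have hone_mem : one ∈ U0 σ := by
      intro w
      have : σ.SameCycle v (σ⁻¹ w) ↔ σ.SameCycle v w := Equiv.Perm.sameCycle_symm_apply_right
      simp only [hone, this]
    have hx1 : one (b0, x0) = 1 := by
      rw [hone]; simp only [hw0, if_true]
    have hx2 : one (b0, !x0) = 0 := by
      rw [hone]
      simp only
      rw [if_neg]
      intro h
      have := (huniq' b0 (!x0) hb0 h).2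
      cases x0 <;> simp at this
    have hother : ∀ b ∈ A.erase b0, ∀ x, one (b, x) = 0 := by
      intro b hb x
      rw [hone]
      simp only
      rw [if_neg]
      intro h
      exact (Finset.ne_of_mem_erase hb) (huniq' b x (Finset.mem_of_mem_erase hb) h).1
    set d : ZMod 3 := y b0 - (c (b0, false) - c (b0, true)) with hd
    set e : ZMod 3 := if x0 then -d else d with he
    refine ⟨c + e • one, ?_, ?_⟩
    · refine (U0 σ).add_mem hc ?_
      intro w
      simp only [Pi.smul_apply, hone_mem w]
    · intro b hb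
      simp only [Pi.add_apply, Pi.smul_apply, smul_eq_mul]
      by_cases hbb : b = b0
      · subst hbb
        cases x0
        · rw [hx1, show one (b, true) = 0 from hx2, he, hd]
          simp only [Bool.false_eq_true, if_false]
          ring
        · rw [hx1, show one (b, false) = 0 from hx2, he, hd]
          simp only [if_true]
          ring
      · have hb' : b ∈ A.erase b0 := Finset.mem_erase.2 ⟨hbb, hb⟩
        rw [hother b hb', hother b hb', mul_zero, add_zero, add_zero, hc2 b hb']

theorem index_forest {σ : Equiv.Perm (B × Bool)} {A : Finset B} (h : IsForest σ A) :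
    (psi σ A).range.index = 1 := by
  classical
  rw [AddSubgroup.index_eq_one, AddMonoidHom.range_eq_top]
  intro y
  obtain ⟨c, hc, hc2⟩ := forest_solve σ _ A rfl h (fun b => if hb : b ∈ A then y ⟨b, hb⟩ else 0)
  refine ⟨⟨c, hc⟩, ?_⟩
  ext b
  have := hc2 b.1 b.2
  rw [dif_pos b.2] at this
  exact this

theorem index_not_forest {σ : Equiv.Perm (B × Bool)} {A : Finset B} (h : ¬ IsForest σ A) :
    3 ∣ (psi σ A).range.index := by
  classical
  have hne : (psi σ A).range.index ≠ 1 := by
    intro hi
    rw [AddSubgroup.index_eq_one, AddMonoidHom.range_eq_top] at hi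
    apply h
    by_contra hcon
    unfold IsForest at h
    push Not at h
    obtain ⟨A', hA', hne', hcard⟩ := h
    let st : Setoid (B × Bool) := Equiv.Perm.SameCycle.setoid σ
    let T : Finset (Quotient st) := (A' ×ˢ (univ : Finset Bool)).image (Quotient.mk st)
    have hTcard : T.card ≤ A'.card := by
      have h1 : (A' ×ˢ (univ : Finset Bool)).card = 2 * A'.card := by
        rw [Finset.card_product, Finset.card_univ, Fintype.card_bool, mul_comm]
      have h2 : ∀ q ∈ T, 2 ≤ ((A' ×ˢ (univ : Finset Bool)).filter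
          (fun w => Quotient.mk st w = q)).card := by
        intro q hq
        obtain ⟨w, hw, rfl⟩ := Finset.mem_image.1 hq
        have h3 := hcard w
        have h4 : Nat.card {w' : B × Bool // w'.1 ∈ A' ∧ σ.SameCycle w w'} =
            ((A' ×ˢ (univ : Finset Bool)).filter
              (fun w' => Quotient.mk st w' = Quotient.mk st w)).card := by
          rw [Nat.card_eq_fintype_card, Fintype.card_subtype]
          congr 1
          ext w'
          simp only [mem_filter, mem_univ, true_and, mem_product, and_true]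
          refine and_congr_right fun _ => ?_
          rw [Quotient.eq]
          exact ⟨fun h => Equiv.Perm.SameCycle.symm h, fun h => Equiv.Perm.SameCycle.symm h⟩
        rw [h4] at h3
        have h5 : 0 < ((A' ×ˢ (univ : Finset Bool)).filter
            (fun w' => Quotient.mk st w' = Quotient.mk st w)).card := by
          apply Finset.card_pos.2
          exact ⟨w, Finset.mem_filter.2 ⟨hw, rfl⟩⟩
        omega
      have h3 : T.card * 2 ≤ (A' ×ˢ (univ : Finset Bool)).card := by
        rw [Finset.card_eq_sum_card_fiberwise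
          (f := Quotient.mk st) (t := T) (fun w hw => Finset.mem_coe.2
            (Finset.mem_image_of_mem _ (Finset.mem_coe.1 hw)))]
        rw [← smul_eq_mul]
        exact Finset.card_nsmul_le_sum _ _ _ h2
      omega
    let rho : (T → ZMod 3) → (A' → ZMod 3) := fun d b =>
      d ⟨Quotient.mk st (b.1, false), Finset.mem_image_of_mem _
        (Finset.mem_product.2 ⟨b.2, mem_univ _⟩)⟩ -
      d ⟨Quotient.mk st (b.1, true), Finset.mem_image_of_mem _
        (Finset.mem_product.2 ⟨b.2, mem_univ _⟩)⟩
    have hout : ∀ w : B × Bool, σ.SameCycle (Quotient.mk st w).out w := fun w =>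
      @Quotient.exact _ st _ _ (Quotient.out_eq (Quotient.mk st w))
    have hsurj : Function.Surjective rho := by
      intro y
      obtain ⟨c, hc⟩ := hi (fun b => if hb : b.1 ∈ A' then y ⟨b.1, hb⟩ else 0)
      have hconst : ∀ w w' : B × Bool, σ.SameCycle w w' → c.1 w = c.1 w' := by
        intro w w' hww
        obtain ⟨i, rfl⟩ := hww.exists_nat_pow_eq
        have hstep : ∀ u, c.1 (σ u) = c.1 u := by
          intro u
          have := c.2 (σ u)
          rw [show σ⁻¹ (σ u) = u from σ.symm_apply_apply u] at this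
          exact this.symm
        clear hww
        induction i with
        | zero => simp
        | succ i ih => rw [pow_succ', Equiv.Perm.mul_apply, hstep, ← ih]
      refine ⟨fun q => c.1 q.1.out, ?_⟩
      ext b
      have h1 := congrFun hc ⟨b.1, hA' b.2⟩
      simp only [dif_pos b.2] at h1
      change c.1 (b.1, false) - c.1 (b.1, true) = y b at h1
      rw [← h1]
      change c.1 _ - c.1 _ = _
      congr 1
      · exact hconst _ _ (hout _)
      · exact hconst _ _ (hout _)
    have hcardle : Fintype.card (T → ZMod 3) ≤ Fintype.card (A' → ZMod 3) := by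
      rw [Fintype.card_fun, Fintype.card_fun, Fintype.card_coe, Fintype.card_coe, ZMod.card]
      exact Nat.pow_le_pow_right (by norm_num) hTcard
    have hbij : Function.Bijective rho :=
      (Fintype.bijective_iff_surjective_and_card rho).2
        ⟨hsurj, le_antisymm hcardle (Fintype.card_le_of_surjective rho hsurj)⟩
    have h01 : (fun _ => 0 : T → ZMod 3) = fun _ => 1 := by
      apply hbij.1
      ext b
      simp [rho]
    obtain ⟨b, hb⟩ := hne'
    have := congrFun h01 ⟨Quotient.mk st (b, false), Finset.mem_image_of_mem _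
        (Finset.mem_product.2 ⟨hb, mem_univ _⟩)⟩
    exact absurd this (by decide)
  obtain ⟨j, -, hj⟩ := (Nat.dvd_prime_pow Nat.prime_three).1 (index_dvd σ A)
  rw [hj] at hne ⊢
  cases j with
  | zero => simp at hne
  | succ j => exact dvd_pow_self 3 (Nat.succ_ne_zero j)

/-- colourings obeying the links of a state: parallel links at the edges in `P`, crossed links at
the edges in `A \ P`, and caps at the other edges -/
def VA (σ : Equiv.Perm (B × Bool)) (A P : Finset B) : AddSubgroup (B × Bool → ZMod 3) where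
  carrier := {c | (∀ b ∈ P, c (b, false) = c (b, true) ∧
      c (σ⁻¹ (b, false)) = c (σ⁻¹ (b, true))) ∧
    (∀ b ∈ A \ P, c (b, false) = c (σ⁻¹ (b, true)) ∧ c (σ⁻¹ (b, false)) = c (b, true)) ∧
    ∀ b ∉ A, c (b, false) = c (σ⁻¹ (b, false)) ∧ c (b, true) = c (σ⁻¹ (b, true))}
  zero_mem' := ⟨fun _ _ => ⟨rfl, rfl⟩, fun _ _ => ⟨rfl, rfl⟩, fun _ _ => ⟨rfl, rfl⟩⟩
  add_mem' := by
    rintro a b ⟨h1, h2, h3⟩ ⟨g1, g2, g3⟩
    refine ⟨fun e he => ⟨?_, ?_⟩, fun e he => ⟨?_, ?_⟩, fun e he => ⟨?_, ?_⟩⟩ <;>
      simp only [Pi.add_apply]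
    · rw [(h1 e he).1, (g1 e he).1]
    · rw [(h1 e he).2, (g1 e he).2]
    · rw [(h2 e he).1, (g2 e he).1]
    · rw [(h2 e he).2, (g2 e he).2]
    · rw [(h3 e he).1, (g3 e he).1]
    · rw [(h3 e he).2, (g3 e he).2]
  neg_mem' := by
    rintro a ⟨h1, h2, h3⟩
    refine ⟨fun e he => ⟨?_, ?_⟩, fun e he => ⟨?_, ?_⟩, fun e he => ⟨?_, ?_⟩⟩ <;>
      simp only [Pi.neg_apply]
    · rw [(h1 e he).1]
    · rw [(h1 e he).2]
    · rw [(h2 e he).1]
    · rw [(h2 e he).2]
    · rw [(h3 e he).1]
    · rw [(h3 e he).2]

theorem UA_le_VA (σ : Equiv.Perm (B × Bool)) {A P : Finset B} (hP : P ⊆ A) :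
    UA σ A ≤ VA σ A P := by
  rintro c ⟨h1, h2⟩
  refine ⟨fun b hb => ⟨h2 b (hP hb), ?_⟩, fun b hb => ⟨?_, ?_⟩, fun b _ => ⟨?_, ?_⟩⟩
  · rw [h1, h1, h2 b (hP hb)]
  · rw [h1, h2 b (Finset.mem_sdiff.1 hb).1]
  · rw [h1, h2 b (Finset.mem_sdiff.1 hb).1]
  · rw [h1]
  · rw [h1]

theorem VA_le_UA {σ : Equiv.Perm (B × Bool)} {A P : Finset B} (hF : IsForest σ A) :
    VA σ A P ≤ UA σ A := by
  classical
  rintro c ⟨h1, h2, h3⟩
  -- the jumps
  set j : B × Bool → ZMod 3 := fun w => c w - c (σ⁻¹ w) with hj
  have hjA : ∀ b ∉ A, ∀ x, j (b, x) = 0 := by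
    intro b hb x
    rw [hj]
    cases x
    · exact sub_eq_zero.2 (h3 b hb).1
    · exact sub_eq_zero.2 (h3 b hb).2
  have hj2 : ∀ b, j (b, false) = 0 → j (b, true) = 0 := by
    intro b hb
    by_cases hbA : b ∈ A
    · by_cases hbP : b ∈ P
      · have h := h1 b hbP
        rw [hj] at hb ⊢
        simp only at hb ⊢
        rw [← h.1, ← h.2]
        exact hb
      · have h := h2 b (Finset.mem_sdiff.2 ⟨hbA, hbP⟩)
        rw [hj] at hb ⊢
        simp only at hb ⊢
        rw [← h.1, ← h.2]
        rw [← neg_sub, hb, neg_zero]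
    · exact hjA b hbA true
  have hzero : ∀ b, j (b, false) = 0 := by
    by_contra hcon
    push Not at hcon
    obtain ⟨b1, hb1⟩ := hcon
    set A' := A.filter (fun b => j (b, false) ≠ 0) with hA'
    have hne : A'.Nonempty := by
      refine ⟨b1, Finset.mem_filter.2 ⟨?_, hb1⟩⟩
      by_contra h
      exact hb1 (hjA b1 h false)
    obtain ⟨v, hv⟩ := hF A' (Finset.filter_subset _ _) hne
    rw [Nat.card_eq_one_iff_exists] at hv
    obtain ⟨⟨w0, hw0, hs0⟩, huniq⟩ := hv
    have hsum : ∑ w ∈ univ.filter (fun w => σ.SameCycle v w), j w = 0 := by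
      have e1 : ∑ w ∈ univ.filter (fun w => σ.SameCycle v w), c (σ⁻¹ w) =
          ∑ w ∈ univ.filter (fun w => σ.SameCycle v w), c w := by
        refine Finset.sum_bij (fun w _ => σ⁻¹ w) ?_ ?_ ?_ ?_
        · intro w hw
          rw [Finset.mem_filter] at hw ⊢
          exact ⟨mem_univ _, Equiv.Perm.sameCycle_symm_apply_right.2 hw.2⟩
        · intro a _ b _ hab
          exact σ⁻¹.injective hab
        · intro w hw
          refine ⟨σ w, ?_, σ.symm_apply_apply w⟩
          rw [Finset.mem_filter] at hw ⊢
          exact ⟨mem_univ _, Equiv.Perm.sameCycle_apply_right.2 hw.2⟩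
        · intro w _
          rfl
      rw [hj]
      simp only
      rw [Finset.sum_sub_distrib, e1, sub_self]
    have hsingle : ∑ w ∈ univ.filter (fun w => σ.SameCycle v w), j w = j w0 := by
      rw [Finset.sum_eq_single w0]
      · intro w hw hne'
        by_contra hw2
        apply hne'
        have hwA : w.1 ∈ A' := by
          refine Finset.mem_filter.2 ⟨?_, ?_⟩
          · by_contra h
            exact hw2 (by rcases w with ⟨b, x⟩; exact hjA b h x)
          · intro h0
            rcases w with ⟨b, x⟩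
            cases x
            · exact hw2 h0
            · exact hw2 (hj2 b h0)
        have := huniq ⟨w, hwA, (Finset.mem_filter.1 hw).2⟩
        rw [Subtype.mk.injEq] at this
        exact this
      · intro h
        exact absurd (Finset.mem_filter.2 ⟨mem_univ _, hs0⟩) h
    rw [hsingle] at hsum
    have hw0' := (Finset.mem_filter.1 hw0).2
    rcases w0 with ⟨b, x⟩
    cases x
    · exact hw0' hsum
    · -- jump at the second end is zero, so the first one is
      apply hw0'
      have hbA : b ∈ A := (Finset.mem_filter.1 hw0).1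
      by_cases hbP : b ∈ P
      · have h := h1 b hbP
        rw [hj] at hsum ⊢
        simp only at hsum ⊢
        rw [h.1, h.2]
        exact hsum
      · have h := h2 b (Finset.mem_sdiff.2 ⟨hbA, hbP⟩)
        rw [hj] at hsum ⊢
        simp only at hsum ⊢
        rw [h.1, h.2, ← neg_sub, hsum, neg_zero]
  have hcc : ∀ v, c (σ⁻¹ v) = c v := by
    rintro ⟨b, x⟩
    have : j (b, x) = 0 := by
      cases x
      · exact hzero b
      · exact hj2 b (hzero b)
    exact (sub_eq_zero.1 this).symm
  refine ⟨hcc, fun b hb => ?_⟩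
  by_cases hbP : b ∈ P
  · exact (h1 b hbP).1
  · rw [(h2 b (Finset.mem_sdiff.2 ⟨hb, hbP⟩)).1, hcc]

end Pool.Agent.U430.SN
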