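import Pool.Agent.U430.SN.Three

set_option autoImplicit false

/-!
The alternating number of forests and the circuit cover.
-/

namespace Pool.Agent.U430.SN

open Finset

variable {B : Type} [Fintype B] [DecidableEq B]

theorem Pl_zmod (i j k l : ZMod 3) : Pl i j k l =
    (3 * ((if i = k ∧ j = l then 1 else 0) + (if i = l ∧ j = k then 1 else 0))) +
    (-2) * (if i = j ∧ k = l then 1 else 0) := by
  unfold Pl
  rw [neg_mul, ← sub_eq_add_neg]
  rfl

theorem Wt_eq (σ : Equiv.Perm (B × Bool)) :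
    Wt σ = ∑ A : Finset B, ∑ P ∈ A.powerset,
      (-2) ^ (univ \ A).card * (3 ^ A.card * (Nat.card (VA σ A P) : ℤ)) := by
  classical
  have h1 : Wt σ = ∑ c : B × Bool → ZMod 3, ∏ b : B,
      ((3 * ((if c (b, false) = c (b, true) ∧ c (σ⁻¹ (b, false)) = c (σ⁻¹ (b, true)) then 1 else 0)
        + (if c (b, false) = c (σ⁻¹ (b, true)) ∧ c (σ⁻¹ (b, false)) = c (b, true) then 1 else 0)))
      + (-2) * (if c (b, false) = c (σ⁻¹ (b, false)) ∧ c (b, true) = c (σ⁻¹ (b, true))
        then 1 else 0) : ℤ) := by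
    rw [Wt]
    change (∑ c : B × Bool → ZMod 3, _) = _
    refine Finset.sum_congr rfl fun c _ => Finset.prod_congr rfl fun b _ => ?_
    exact Pl_zmod _ _ _ _
  rw [h1]
  have h2 : ∀ c : B × Bool → ZMod 3, (∏ b : B,
      ((3 * ((if c (b, false) = c (b, true) ∧ c (σ⁻¹ (b, false)) = c (σ⁻¹ (b, true)) then 1 else 0)
        + (if c (b, false) = c (σ⁻¹ (b, true)) ∧ c (σ⁻¹ (b, false)) = c (b, true) then 1 else 0)))
      + (-2) * (if c (b, false) = c (σ⁻¹ (b, false)) ∧ c (b, true) = c (σ⁻¹ (b, true))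
        then 1 else 0) : ℤ)) =
      ∑ A : Finset B, ∑ P ∈ A.powerset, (-2) ^ (univ \ A).card * (3 ^ A.card *
        (if c ∈ VA σ A P then 1 else 0)) := by
    intro c
    rw [Finset.prod_add, Finset.powerset_univ]
    refine Finset.sum_congr rfl fun A _ => ?_
    rw [Finset.prod_mul_distrib, Finset.prod_const, Finset.prod_mul_distrib, Finset.prod_const,
      Finset.prod_add, Finset.mul_sum, Finset.sum_mul]
    refine Finset.sum_congr rfl fun P hP => ?_
    rw [Finset.prod_ite_zero, Finset.prod_ite_zero, Finset.prod_ite_zero, Finset.prod_const_one,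
      Finset.prod_const_one, Finset.prod_const_one]
    have h3 : (if c ∈ VA σ A P then 1 else 0 : ℤ) =
        (if ∀ b ∈ P, c (b, false) = c (b, true) ∧ c (σ⁻¹ (b, false)) = c (σ⁻¹ (b, true))
          then 1 else 0) *
        (if ∀ b ∈ A \ P, c (b, false) = c (σ⁻¹ (b, true)) ∧ c (σ⁻¹ (b, false)) = c (b, true)
          then 1 else 0) *
        (if ∀ b ∈ univ \ A, c (b, false) = c (σ⁻¹ (b, false)) ∧ c (b, true) = c (σ⁻¹ (b, true))
          then 1 else 0) := by
      have h4 : c ∈ VA σ A P ↔ ((∀ b ∈ P, c (b, false) = c (b, true) ∧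
          c (σ⁻¹ (b, false)) = c (σ⁻¹ (b, true))) ∧
        (∀ b ∈ A \ P, c (b, false) = c (σ⁻¹ (b, true)) ∧ c (σ⁻¹ (b, false)) = c (b, true))) ∧
        ∀ b ∈ univ \ A, c (b, false) = c (σ⁻¹ (b, false)) ∧ c (b, true) = c (σ⁻¹ (b, true)) := by
        constructor
        · rintro ⟨g1, g2, g3⟩
          exact ⟨⟨g1, g2⟩, fun b hb => g3 b (Finset.mem_sdiff.1 hb).2⟩
        · rintro ⟨⟨g1, g2⟩, g3⟩
          exact ⟨g1, g2, fun b hb => g3 b (Finset.mem_sdiff.2 ⟨mem_univ _, hb⟩)⟩
      rw [if_congr h4 rfl rfl, ite_and, ite_and]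
      split_ifs <;> simp
    rw [h3]
    ring_nf
  simp only [h2]
  rw [Finset.sum_comm]
  refine Finset.sum_congr rfl fun A _ => ?_
  rw [Finset.sum_comm]
  refine Finset.sum_congr rfl fun P _ => ?_
  rw [← Finset.mul_sum, ← Finset.mul_sum]
  congr 2
  rw [Finset.sum_boole, Nat.card_eq_fintype_card, Fintype.card_subtype]

open Classical in
/-- the alternating number of the forests of the contracted graph -/
noncomputable def TF (σ : Equiv.Perm (B × Bool)) : ℤ :=
  ∑ A : Finset B, if IsForest σ A then (-1) ^ A.card else 0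

theorem card_forest {σ : Equiv.Perm (B × Bool)} {A P : Finset B} (hP : P ⊆ A)
    (hF : IsForest σ A) : 3 ^ A.card * Nat.card (VA σ A P) = Nat.card (U0 σ) := by
  rw [le_antisymm (VA_le_UA hF) (UA_le_VA σ hP), card_UA, index_forest hF, mul_one]

theorem card_not_forest {σ : Equiv.Perm (B × Bool)} {A P : Finset B} (hP : P ⊆ A)
    (hF : ¬ IsForest σ A) :
    Nat.card (U0 σ) * 3 ∣ 3 ^ A.card * Nat.card (VA σ A P) := by
  have h1 : 3 ^ A.card * Nat.card (UA σ A) ∣ 3 ^ A.card * Nat.card (VA σ A P) :=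
    mul_dvd_mul_left _ (AddSubgroup.card_dvd_of_le (UA_le_VA σ hP))
  refine dvd_trans ?_ h1
  rw [card_UA]
  exact mul_dvd_mul_left _ (index_not_forest hF)

theorem Wt_ne_zero (σ : Equiv.Perm (B × Bool)) (hT : ¬ (3 : ℤ) ∣ TF σ) : Wt σ ≠ 0 := by
  classical
  intro h0
  apply hT
  have hN : (Nat.card (U0 σ) : ℤ) ≠ 0 := by
    have : Nat.card (U0 σ) ≠ 0 := Nat.card_pos.ne'
    exact_mod_cast this
  have hex : ∀ A P : Finset B, ∃ q : ℤ, P ⊆ A →
      (3 ^ A.card * (Nat.card (VA σ A P) : ℤ)) =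
        (Nat.card (U0 σ) : ℤ) * (if IsForest σ A then 1 else 3 * q) := by
    intro A P
    by_cases hP : P ⊆ A
    · by_cases hF : IsForest σ A
      · refine ⟨0, fun _ => ?_⟩
        rw [if_pos hF, mul_one]
        exact_mod_cast card_forest hP hF
      · obtain ⟨q, hq⟩ := card_not_forest (σ := σ) hP hF
        refine ⟨q, fun _ => ?_⟩
        rw [if_neg hF]
        have : ((3 ^ A.card * Nat.card (VA σ A P) : ℕ) : ℤ) = ((Nat.card (U0 σ) * 3 * q : ℕ) : ℤ) := by
          rw [hq]
        push_cast at this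
        rw [this]
        ring
    · exact ⟨0, fun h => absurd h hP⟩
  choose q hq using hex
  have h1 : Wt σ = (Nat.card (U0 σ) : ℤ) * ∑ A : Finset B, ∑ P ∈ A.powerset,
      (-2) ^ (univ \ A).card * (if IsForest σ A then 1 else 3 * q A P) := by
    rw [Wt_eq, Finset.mul_sum]
    refine Finset.sum_congr rfl fun A _ => ?_
    rw [Finset.mul_sum]
    refine Finset.sum_congr rfl fun P hP => ?_
    rw [hq A P (Finset.mem_powerset.1 hP)]
    ring
  rw [h0] at h1
  have h2 := (mul_eq_zero.1 h1.symm).resolve_left hN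
  have h3 : ((TF σ : ℤ) : ZMod 3) = 0 := by
    have h4 := congrArg (Int.cast : ℤ → ZMod 3) h2
    rw [Int.cast_zero] at h4
    rw [← h4, TF]
    push_cast
    refine Finset.sum_congr rfl fun A _ => ?_
    have e3 : (3 : ZMod 3) = 0 := by decide
    have e2 : (-2 : ZMod 3) = 1 := by decide
    have e1 : (2 : ZMod 3) = -1 := by decide
    by_cases hF : IsForest σ A
    · simp only [if_pos hF]
      rw [Finset.sum_const, Finset.card_powerset, e2, one_pow, one_mul, nsmul_eq_mul]
      push_cast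
      rw [e1, mul_one]
    · simp only [if_neg hF, e3, zero_mul, mul_zero, Finset.sum_const_zero]
  exact (ZMod.intCast_zmod_eq_zero_iff_dvd _ _).1 h3

/-- If `3` does not divide the alternating number of forests, the weight `4` on the matching and
`2` on the `2`-factor has a circuit cover. -/
theorem cover_of_forests (σ : Equiv.Perm (B × Bool)) (hT : ¬ (3 : ℤ) ∣ TF σ) :
    ∃ F : Multiset (Finset (B ⊕ B × Bool)), (∀ C ∈ F, (Gr σ).IsCircuit C) ∧
      (∀ b, F.countP (fun C => Sum.inl b ∈ C) = 4) ∧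
      ∀ v, F.countP (fun C => Sum.inr v ∈ C) = 2 :=
  cover_of_Wt σ (Wt_ne_zero σ hT)

end Pool.Agent.U430.SN
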