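import Pool.Agent.U430.SN.Coef

set_option autoImplicit false

/-!
Evaluation of the functional as a sum over the colourings of the `2`-factor with three colours.
-/

namespace Pool.Agent.U430.SN

open Finset

variable {B : Type} [Fintype B] [DecidableEq B]

/-- the other end of the matching edge -/
def ta (v : B × Bool) : B × Bool := (v.1, !v.2)

noncomputable def sg (v : B × Bool) : ℂ := if v.2 then -1 else 1

omit [Fintype B] [DecidableEq B] in
theorem ta_ta (v : B × Bool) : ta (ta v) = v := by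
  simp [ta]

omit [Fintype B] [DecidableEq B] in
theorem sg_ta (v : B × Bool) : sg (ta v) = - sg v := by
  rcases v with ⟨b, x⟩
  cases x <;> simp [ta, sg]

omit [Fintype B] [DecidableEq B] in
theorem sg_sq (v : B × Bool) : sg v * sg v = 1 := by
  rcases v with ⟨b, x⟩
  cases x <;> simp [sg]

/-- coefficients of the three quadratic forms -/
noncomputable def xc : Fin 3 → Fin 3 → ℂ :=
  ![![Complex.I, 0, Complex.I], ![-1, 0, 1], ![0, 2, 0]]

noncomputable def zz (v : B × Bool) : MvPolynomial ((B × Bool) ⊕ (B × Bool)) ℂ :=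
  MvPolynomial.C (sg (ta v)) * MvPolynomial.X (Sum.inl (ta v))

noncomputable def yy (v : B × Bool) : MvPolynomial ((B × Bool) ⊕ (B × Bool)) ℂ :=
  MvPolynomial.X (Sum.inr v)

noncomputable def XX (i : Fin 3) (v : B × Bool) : MvPolynomial ((B × Bool) ⊕ (B × Bool)) ℂ :=
  ∑ p : Fin 3, MvPolynomial.C (xc i p) * (zz v ^ (p : ℕ) * yy v ^ (2 - (p : ℕ)))

omit [Fintype B] [DecidableEq B] in
theorem Qf_sq (σ : Equiv.Perm (B × Bool)) (a : B × Bool) :
    -2 * Qf σ ta sg a ^ 2 = ∑ i : Fin 3, XX i a * XX i (σ a) := by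
  have h : Qf σ ta sg a = zz a * yy (σ a) - zz (σ a) * yy a := by
    rw [Qf, zz, zz, yy, yy]
    ring
  have hI : (MvPolynomial.C Complex.I : MvPolynomial ((B × Bool) ⊕ (B × Bool)) ℂ) *
      MvPolynomial.C Complex.I = -1 := by
    rw [← map_mul, Complex.I_mul_I, map_neg, map_one]
  rw [h]
  simp only [XX, Fin.sum_univ_three, xc, Matrix.cons_val_zero, Matrix.cons_val_one,
    Matrix.cons_val, Fin.val_zero, Fin.val_one, Fin.val_two, map_zero, map_neg, map_one, zero_mul,
    add_zero, zero_add, pow_zero, pow_one, one_mul, mul_one, Nat.sub_zero, Nat.reduceSub]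
  have h2 : (MvPolynomial.C (2 : ℂ) : MvPolynomial ((B × Bool) ⊕ (B × Bool)) ℂ) = 2 := by
    rw [map_ofNat]
  rw [h2]
  generalize zz a = z1
  generalize yy (σ a) = y2
  generalize zz (σ a) = z2
  generalize yy a = y1
  linear_combination (-(y1 ^ 2 + z1 ^ 2) * (y2 ^ 2 + z2 ^ 2)) * hI

/-- the local weight in the monomial basis -/
noncomputable def lw (m n : ℕ) : ℂ :=
  if n = 4 - m ∧ m = 4 - n then (-1) ^ m * (m.factorial : ℂ) * (n.factorial : ℂ) else 0

theorem L_mono (m : B × Bool → ℕ) :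
    L (∏ v : B × Bool, zz v ^ (m v) * yy v ^ (4 - m v)) =
      ∏ b : B, lw (m (b, false)) (m (b, true)) := by
  have h1 : (∏ v : B × Bool, zz v ^ (m v) * yy v ^ (4 - m v)) =
      MvPolynomial.monomial (Finsupp.equivFunOnFinite.symm
        (Sum.elim (fun v => m (ta v)) (fun v => 4 - m v))) (∏ v : B × Bool, sg (ta v) ^ m v) := by
    rw [MvPolynomial.monomial_eq, Finsupp.prod_fintype _ _ (fun _ => pow_zero _),
      Fintype.prod_sum_type, map_prod]
    have hinv : Function.Involutive (ta : B × Bool → B × Bool) := ta_ta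
    have h2 : (∏ v : B × Bool, (MvPolynomial.X (Sum.inl v) :
        MvPolynomial ((B × Bool) ⊕ (B × Bool)) ℂ) ^ m (ta v)) =
        ∏ v : B × Bool, MvPolynomial.X (Sum.inl (ta v)) ^ m v := by
      rw [← Equiv.prod_comp hinv.toPerm]
      refine Finset.prod_congr rfl fun v _ => ?_
      change MvPolynomial.X (Sum.inl (ta v)) ^ m (ta (ta v)) = _
      rw [ta_ta]
    simp only [Finsupp.equivFunOnFinite_symm_apply_apply, Sum.elim_inl, Sum.elim_inr]
    rw [h2, ← Finset.prod_mul_distrib, ← Finset.prod_mul_distrib]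
    refine Finset.prod_congr rfl fun v _ => ?_
    rw [zz, yy, mul_pow, map_pow]
    ring
  rw [h1, L_monomial]
  have h3 : (wt (Finsupp.equivFunOnFinite.symm
        (Sum.elim (fun v : B × Bool => m (ta v)) (fun v => 4 - m v))) : ℂ) =
      ∏ b : B, if m (b, true) = 4 - m (b, false) ∧ m (b, false) = 4 - m (b, true) then
        ((m (b, false)).factorial : ℂ) * ((m (b, true)).factorial : ℂ) else 0 := by
    rw [wt]
    simp only [Finsupp.equivFunOnFinite_symm_apply_apply, Sum.elim_inl, Sum.elim_inr]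
    by_cases hc : ∀ b : B, m (b, true) = 4 - m (b, false) ∧ m (b, false) = 4 - m (b, true)
    · rw [if_pos]
      · rw [Fintype.prod_prod_type]
        push_cast
        refine Finset.prod_congr rfl fun b _ => ?_
        rw [if_pos (hc b), Fintype.prod_bool]
        simp [ta]
      · rintro ⟨b, x⟩
        have := hc b
        cases x
        · simpa [ta] using this.1
        · simpa [ta] using this.2
    · rw [if_neg]
      · push Not at hc
        obtain ⟨b, hb⟩ := hc
        rw [Nat.cast_zero]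
        symm
        apply Finset.prod_eq_zero (mem_univ b)
        rw [if_neg]
        rintro ⟨h1, h2⟩
        exact hb h1 h2
      · intro h
        apply hc
        intro b
        have h1 := h (b, false)
        have h2 := h (b, true)
        simp only [ta, Bool.not_false, Bool.not_true] at h1 h2
        exact ⟨h1, h2⟩
  rw [h3, Fintype.prod_prod_type, ← Finset.prod_mul_distrib]
  refine Finset.prod_congr rfl fun b _ => ?_
  rw [Fintype.prod_bool, lw]
  split_ifs with h
  · simp [ta, sg]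
    ring
  · simp

/-- the local weight in the colour basis -/
def Pl (i j k l : Fin 3) : ℤ :=
  3 * ((if i = k ∧ j = l then 1 else 0) + (if i = l ∧ j = k then 1 else 0)) -
    2 * (if i = j ∧ k = l then 1 else 0)

theorem local_id (i j k l : Fin 3) :
    (∑ u : Fin 3 × Fin 3, ∑ w : Fin 3 × Fin 3, xc i u.1 * xc j u.2 * (xc k w.1 * xc l w.2) *
      lw (u.1 + u.2 : ℕ) (w.1 + w.2 : ℕ)) = 16 * (Pl i j k l : ℂ) := by
  simp only [Fintype.sum_prod_type, Fin.sum_univ_three, lw, Fin.val_zero, Fin.val_one, Fin.val_two]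
  norm_num [Nat.factorial]
  fin_cases i <;> fin_cases j <;> fin_cases k <;> fin_cases l <;> simp [xc, Pl] <;> ring_nf <;>
    simp [Complex.I_sq]

/-- the state sum with three colours -/
def Wt (σ : Equiv.Perm (B × Bool)) : ℤ :=
  ∑ c : B × Bool → Fin 3, ∏ b : B,
    Pl (c (b, false)) (c (σ⁻¹ (b, false))) (c (b, true)) (c (σ⁻¹ (b, true)))

omit [Fintype B] [DecidableEq B] in
theorem XX_mul (i j : Fin 3) (v : B × Bool) : XX i v * XX j v =
    ∑ u : Fin 3 × Fin 3, MvPolynomial.C (xc i u.1 * xc j u.2) *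
      (zz v ^ (u.1 + u.2 : ℕ) * yy v ^ (4 - (u.1 + u.2 : ℕ))) := by
  rw [XX, XX, Finset.sum_mul_sum, Fintype.sum_prod_type]
  refine Finset.sum_congr rfl fun p _ => Finset.sum_congr rfl fun q _ => ?_
  have h1 : 4 - ((p : ℕ) + (q : ℕ)) = (2 - (p : ℕ)) + (2 - (q : ℕ)) := by
    have := p.isLt
    have := q.isLt
    omega
  rw [h1, pow_add, pow_add, map_mul]
  ring

theorem sum_prod_pairs {T : Type} [Fintype T] [DecidableEq T] (F : B → T → T → ℂ) :
    (∑ h : B × Bool → T, ∏ b : B, F b (h (b, false)) (h (b, true))) =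
      ∏ b : B, ∑ u : T, ∑ w : T, F b u w := by
  have h1 : ∀ b : B, (∑ u : T, ∑ w : T, F b u w) =
      ∑ k : Bool → T, F b (k false) (k true) := by
    intro b
    rw [← (Equiv.boolArrowEquivProd T).symm.sum_comp, Fintype.sum_prod_type]
    rfl
  simp only [h1]
  rw [Finset.prod_univ_sum, Fintype.piFinset_univ, ← (Equiv.curry B Bool T).sum_comp]
  rfl

theorem eval (σ : Equiv.Perm (B × Bool)) :
    L (∏ a, (-2 * Qf σ ta sg a ^ 2)) =
      ∑ c : B × Bool → Fin 3, ∏ b : B, (16 * (Pl (c (b, false)) (c (σ⁻¹ (b, false)))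
        (c (b, true)) (c (σ⁻¹ (b, true))) : ℂ)) := by
  have h1 : (∏ a, (-2 * Qf σ ta sg a ^ 2)) =
      ∑ c : B × Bool → Fin 3, ∑ h : B × Bool → Fin 3 × Fin 3,
        MvPolynomial.C (∏ v, (xc (c v) (h v).1 * xc (c (σ⁻¹ v)) (h v).2)) *
        ∏ v, (zz v ^ ((h v).1 + (h v).2 : ℕ) * yy v ^ (4 - ((h v).1 + (h v).2 : ℕ))) := by
    simp only [Qf_sq]
    rw [Finset.prod_univ_sum, Fintype.piFinset_univ]
    refine Finset.sum_congr rfl fun c _ => ?_
    rw [Finset.prod_mul_distrib]
    have h2 : ∏ a, XX (c a) (σ a) = ∏ v, XX (c (σ⁻¹ v)) v := by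
      rw [← Equiv.prod_comp σ (fun v => XX (c (σ⁻¹ v)) v)]
      refine Finset.prod_congr rfl fun a _ => ?_
      rw [show σ⁻¹ (σ a) = a from σ.symm_apply_apply a]
    rw [h2, ← Finset.prod_mul_distrib]
    simp only [XX_mul]
    rw [Finset.prod_univ_sum, Fintype.piFinset_univ]
    refine Finset.sum_congr rfl fun h _ => ?_
    rw [Finset.prod_mul_distrib, map_prod]
  rw [h1, map_sum]
  refine Finset.sum_congr rfl fun c _ => ?_
  rw [map_sum]
  have h3 : ∀ h : B × Bool → Fin 3 × Fin 3,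
      L (MvPolynomial.C (∏ v, (xc (c v) (h v).1 * xc (c (σ⁻¹ v)) (h v).2)) *
        ∏ v, (zz v ^ ((h v).1 + (h v).2 : ℕ) * yy v ^ (4 - ((h v).1 + (h v).2 : ℕ)))) =
      ∏ b : B, (fun (b : B) (u w : Fin 3 × Fin 3) =>
        xc (c (b, false)) u.1 * xc (c (σ⁻¹ (b, false))) u.2 *
        (xc (c (b, true)) w.1 * xc (c (σ⁻¹ (b, true))) w.2) *
        lw (u.1 + u.2 : ℕ) (w.1 + w.2 : ℕ)) b (h (b, false)) (h (b, true)) := by
    intro h
    rw [← MvPolynomial.smul_eq_C_mul, map_smul,
      L_mono (fun v => ((h v).1 + (h v).2 : ℕ)), smul_eq_mul,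
      Fintype.prod_prod_type, ← Finset.prod_mul_distrib]
    refine Finset.prod_congr rfl fun b _ => ?_
    rw [Fintype.prod_bool]
    ring
  simp only [h3]
  rw [sum_prod_pairs (fun (b : B) (u w : Fin 3 × Fin 3) =>
        xc (c (b, false)) u.1 * xc (c (σ⁻¹ (b, false))) u.2 *
        (xc (c (b, true)) w.1 * xc (c (σ⁻¹ (b, true))) w.2) *
        lw (u.1 + u.2 : ℕ) (w.1 + w.2 : ℕ))]
  refine Finset.prod_congr rfl fun b _ => ?_
  exact local_id _ _ _ _

/-- a non-zero state sum gives a representation of twice the `2`-factor -/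
theorem two_mem_of_Wt (σ : Equiv.Perm (B × Bool)) (h : Wt σ ≠ 0) :
    Finsupp.equivFunOnFinite.symm (fun _ : B × Bool => 2) ∈ Mo σ ta := by
  apply two_mem ta_ta sg_ta sg_sq
  intro h0
  have h1 := eval σ
  have h2 : (∏ a, (-2 * Qf σ ta sg a ^ 2)) =
      MvPolynomial.C ((-2 : ℂ) ^ Fintype.card (B × Bool)) * ∏ a, Qf σ ta sg a ^ 2 := by
    rw [Finset.prod_mul_distrib, Finset.prod_const, Finset.card_univ, map_pow, map_neg, map_ofNat]
  rw [h2, ← MvPolynomial.smul_eq_C_mul, map_smul, h0, smul_zero] at h1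
  have h3 : (∑ c : B × Bool → Fin 3, ∏ b : B, (16 * (Pl (c (b, false)) (c (σ⁻¹ (b, false)))
        (c (b, true)) (c (σ⁻¹ (b, true))) : ℂ))) = 16 ^ Fintype.card B * (Wt σ : ℂ) := by
    rw [Wt, Int.cast_sum, Finset.mul_sum]
    refine Finset.sum_congr rfl fun c _ => ?_
    rw [Finset.prod_mul_distrib, Finset.prod_const, Finset.card_univ, Int.cast_prod]
  rw [h3] at h1
  have h4 : (16 : ℂ) ^ Fintype.card B ≠ 0 := pow_ne_zero _ (by norm_num)
  have h5 : (Wt σ : ℂ) ≠ 0 := by exact_mod_cast h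
  exact mul_ne_zero h4 h5 h1.symm

end Pool.Agent.U430.SN
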