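import Pool.Agent.U430.SN.Supp

set_option autoImplicit false

/-!
Only exponents of sums of perfect matchings occur in the moments `g_s`.
-/

namespace Pool.Agent.U430.SN

open Finset PowerSeries Pool.Agent.Helper929 Pool.Agent.H604R2.LEC

variable {V : Type}

/-- polynomials all of whose exponents lie in a monoid -/
noncomputable def subR (M : AddSubmonoid (V →₀ ℕ)) : Subring (PR V) where
  carrier := {p | ∀ ξ, MvPolynomial.coeff ξ p ≠ 0 → ξ ∈ M}
  zero_mem' := by
    intro ξ h
    simp at h
  one_mem' := by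
    classical
    intro ξ h
    rw [MvPolynomial.coeff_one] at h
    by_cases h0 : 0 = ξ
    · rw [← h0]; exact M.zero_mem
    · rw [if_neg h0] at h; exact absurd rfl h
  add_mem' := by
    intro a b ha hb ξ h
    rw [MvPolynomial.coeff_add] at h
    by_cases h0 : MvPolynomial.coeff ξ a = 0
    · rw [h0, zero_add] at h
      exact hb ξ h
    · exact ha ξ h0
  neg_mem' := by
    intro a ha ξ h
    rw [MvPolynomial.coeff_neg, neg_ne_zero] at h
    exact ha ξ h
  mul_mem' := by
    classical
    intro a b ha hb ξ h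
    rw [MvPolynomial.coeff_mul] at h
    obtain ⟨x, hx, hne⟩ := Finset.exists_ne_zero_of_sum_ne_zero h
    rw [Finset.HasAntidiagonal.mem_antidiagonal] at hx
    rw [← hx]
    exact M.add_mem (ha _ (left_ne_zero_of_mul hne)) (hb _ (right_ne_zero_of_mul hne))

theorem mem_subR {M : AddSubmonoid (V →₀ ℕ)} {p : PR V} :
    p ∈ subR M ↔ ∀ ξ, MvPolynomial.coeff ξ p ≠ 0 → ξ ∈ M := Iff.rfl

theorem mul_mem_coeff {M : AddSubmonoid (V →₀ ℕ)} {φ ψ : (PR V)⟦X⟧}
    (h1 : ∀ n, coeff n φ ∈ subR M) (h2 : ∀ n, coeff n ψ ∈ subR M) (n : ℕ) :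
    coeff n (φ * ψ) ∈ subR M := by
  rw [PowerSeries.coeff_mul]
  exact Subring.sum_mem _ fun x _ => Subring.mul_mem _ (h1 _) (h2 _)

theorem inv_mem {M : AddSubmonoid (V →₀ ℕ)} {D G : (PR V)⟦X⟧} (hD : ∀ n, coeff n D ∈ subR M)
    (h0 : constantCoeff D = 1) (h : D * G = 1) : ∀ n, coeff n G ∈ subR M := by
  intro n
  induction n using Nat.strong_induction_on with
  | _ n ih =>
    have h1 : coeff n (D * G) = coeff n (1 : (PR V)⟦X⟧) := by rw [h]
    rw [PowerSeries.coeff_mul, Finset.Nat.sum_antidiagonal_eq_sum_range_succ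
      (fun i j => coeff i D * coeff j G), Finset.sum_range_succ'] at h1
    simp only [Nat.sub_zero, PowerSeries.coeff_zero_eq_constantCoeff_apply, h0, one_mul] at h1
    have h2 : coeff n G = coeff n (1 : (PR V)⟦X⟧) -
        ∑ k ∈ range n, coeff (k + 1) D * coeff (n - (k + 1)) G := by
      rw [← h1]; ring
    rw [h2]
    refine Subring.sub_mem _ ?_ (Subring.sum_mem _ fun k hk => ?_)
    · rw [PowerSeries.coeff_one]
      split_ifs
      · exact Subring.one_mem _
      · exact Subring.zero_mem _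
    · rw [mem_range] at hk
      exact Subring.mul_mem _ (hD _) (ih _ (by omega))

variable [Fintype V] [DecidableEq V]

noncomputable def KM (τ : V → V) (s : V → ℂ) : Matrix V V (PR V) :=
  Matrix.of fun a b => if b = τ a then MvPolynomial.C (s a) else 0

noncomputable def KF (σ : Equiv.Perm V) : Matrix V V (PR V) :=
  Matrix.of fun a b => (if b = σ a then MvPolynomial.X a else 0) +
    -(if a = σ b then MvPolynomial.X b else 0)

/-- the matrix `K_M K_F` -/
noncomputable def Cx (σ : Equiv.Perm V) (τ : V → V) (s : V → ℂ) : Matrix V V (PR V) :=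
  KM τ s * KF σ

omit [Fintype V] in
theorem Kt_eq (σ : Equiv.Perm V) (τ : V → V) (s : V → ℂ) :
    Kt σ τ s = Cm V (KM τ s) + (X : (PR V)⟦X⟧) • Cm V (KF σ) := by
  ext a b : 1
  rw [Matrix.add_apply, Matrix.smul_apply, Cm, Cm, Matrix.map_apply, Matrix.map_apply, KM, KF, Kt,
    Matrix.of_apply, Matrix.of_apply, Matrix.of_apply, smul_eq_mul, map_add, map_neg, mul_add,
    mul_neg]
  congr 1
  · split_ifs <;> simp
  · congr 1
    · split_ifs <;> simp
    · congr 1
      split_ifs <;> simp

theorem KM_sq {τ : V → V} {s : V → ℂ} (hτ : ∀ v, τ (τ v) = v) (hs : ∀ v, s (τ v) = - s v)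
    (hs2 : ∀ v, s v * s v = 1) : KM τ s * KM τ s = -1 := by
  ext a b : 1
  rw [Matrix.mul_apply, Finset.sum_eq_single (τ a)]
  · rw [KM, Matrix.of_apply, Matrix.of_apply, if_pos rfl, hτ, Matrix.neg_apply, Matrix.one_apply]
    by_cases h : b = a
    · rw [if_pos h, if_pos h.symm, ← map_mul, hs, mul_neg, hs2, map_neg, map_one]
    · rw [if_neg h, if_neg (Ne.symm h), mul_zero, neg_zero]
  · intro c _ hc
    rw [KM, Matrix.of_apply, if_neg hc, zero_mul]
  · intro h
    exact absurd (mem_univ _) h

theorem det_rel {σ : Equiv.Perm V} {τ : V → V} {s : V → ℂ} (hτ : ∀ v, τ (τ v) = v)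
    (hs : ∀ v, s (τ v) = - s v) (hs2 : ∀ v, s v * s v = 1) :
    (Cm V (KM τ s)).det * (Kt σ τ s).det =
      (-1) ^ (Fintype.card V) * (N1 (Cx σ τ s)).det := by
  rw [← Matrix.det_mul, ← Matrix.det_neg]
  congr 1
  rw [Kt_eq, mul_add, mul_smul_comm, Cm, Cm, ← Matrix.map_mul, ← Matrix.map_mul, KM_sq hτ hs hs2,
    N1, Cx, Cm]
  rw [neg_sub, sub_eq_add_neg, add_comm]
  congr 1
  ext a b : 1
  rw [Matrix.map_apply, Matrix.neg_apply, Matrix.neg_apply, map_neg, Matrix.one_apply,
    Matrix.one_apply]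
  split_ifs <;> simp

theorem det_Kt {σ : Equiv.Perm V} {τ : V → V} {s : V → ℂ} (hτ : ∀ v, τ (τ v) = v)
    (hs : ∀ v, s (τ v) = - s v) (hs2 : ∀ v, s v * s v = 1) (n : ℕ) (e : Fin n ≃ V) :
    (Kt σ τ s).det = pf n (Matrix.of fun i j => Kt σ τ s (e i) (e j)) ^ 2 := by
  have hs0 : ∀ v, s v ≠ 0 := fun v h => by
    have := hs2 v
    rw [h] at this
    simp at this
  have hne : ∀ v, v ≠ τ v := by
    intro v h
    have h1 := hs v
    rw [← h] at h1
    have h2 : 2 * s v = 0 := by linear_combination h1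
    exact hs0 v (by simpa using h2)
  have hanti : ∀ a b, Kt σ τ s a b = - Kt σ τ s b a := by
    intro a b
    rw [Kt, Matrix.of_apply, Matrix.of_apply]
    have h1 : (if b = τ a then PowerSeries.C (MvPolynomial.C (s a)) else 0 : (PR V)⟦X⟧) =
        -(if a = τ b then PowerSeries.C (MvPolynomial.C (s b)) else 0) := by
      by_cases h : b = τ a
      · have h' : a = τ b := by rw [h, hτ]
        rw [if_pos h, if_pos h', h, hs, map_neg, map_neg, neg_neg]
      · have h' : a ≠ τ b := fun h' => h (by rw [h', hτ])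
        rw [if_neg h, if_neg h', neg_zero]
    rw [h1]
    ring
  have hzero : ∀ a, Kt σ τ s a a = 0 := by
    intro a
    rw [Kt, Matrix.of_apply, if_neg (hne a)]
    ring
  have h1 := eq_skew (Matrix.of fun i j => Kt σ τ s (e i) (e j)) (fun i j => hanti _ _)
    (fun i => hzero _)
  rw [h1, pf_sq_ring, ← h1]
  exact (Matrix.det_submatrix_equiv_self e (Kt σ τ s)).symm

/-- the monoid generated by the `F`-parts of the perfect matchings -/
noncomputable def Mo (σ : Equiv.Perm V) (τ : V → V) : AddSubmonoid (V →₀ ℕ) :=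
  AddSubmonoid.closure {ξ | PMon σ τ univ ξ}

theorem g_mem {σ : Equiv.Perm V} {τ : V → V} {s : V → ℂ} (hτ : ∀ v, τ (τ v) = v)
    (hs : ∀ v, s (τ v) = - s v) (hs2 : ∀ v, s v * s v = 1) (n : ℕ) :
    g (Cx σ τ s) n ∈ subR (Mo σ τ) := by
  have hG : ∀ n, coeff n (Gs (Cx σ τ s)) ∈ subR (Mo σ τ) := by
    refine inv_mem (D := (N1 (Cx σ τ s)).det) ?_ ?_ (det_mul_Gs _)
    · have h1 := det_rel (σ := σ) hτ hs hs2
      set e := (Fintype.equivFin V).symm with he
      have h2 := det_Kt (σ := σ) hτ hs hs2 _ e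
      set f := pf (Fintype.card V) (Matrix.of fun i j => Kt σ τ s (e i) (e j)) with hf
      have hsp := pf_sp (σ := σ) hτ s _ e e.injective
      have himg : univ.image e = univ := by
        ext x
        simp only [mem_image, mem_univ, true_and, iff_true]
        exact e.surjective x
      rw [himg, ← hf] at hsp
      have hfm : ∀ n, coeff n f ∈ subR (Mo σ τ) := fun n ξ hξ =>
        AddSubmonoid.subset_closure (hsp n ξ hξ)
      have hfm2 : ∀ n, coeff n (f ^ 2) ∈ subR (Mo σ τ) := by
        intro n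
        rw [pow_two]
        exact mul_mem_coeff hfm hfm n
      -- the constant determinant
      have h3 : (Cm V (KM τ s)).det =
          PowerSeries.C (MvPolynomial.C
            (Matrix.of fun a b => if b = τ a then s a else 0 : Matrix V V ℂ).det) := by
        rw [RingHom.map_det, RingHom.map_det]
        congr 1
        ext a b : 1
        rw [Cm, Matrix.map_apply, KM, Matrix.of_apply, RingHom.mapMatrix_apply, Matrix.map_apply,
          RingHom.mapMatrix_apply, Matrix.map_apply, Matrix.of_apply]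
        split_ifs <;> simp
      set d := (Matrix.of fun a b => if b = τ a then s a else 0 : Matrix V V ℂ).det with hd
      have h4 : (N1 (Cx σ τ s)).det =
          PowerSeries.C (MvPolynomial.C ((-1) ^ (Fintype.card V) * d)) * f ^ 2 := by
        have h5 : ((-1) ^ (Fintype.card V) : (PR V)⟦X⟧) * (-1) ^ (Fintype.card V) = 1 := by
          rw [← mul_pow]; simp
        calc (N1 (Cx σ τ s)).det = ((-1) ^ (Fintype.card V) * (-1) ^ (Fintype.card V)) *
              (N1 (Cx σ τ s)).det := by rw [h5, one_mul]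
          _ = (-1) ^ (Fintype.card V) * ((Cm V (KM τ s)).det * (Kt σ τ s).det) := by
              rw [h1]; ring
          _ = _ := by
              rw [h3, h2, map_mul, map_mul, map_pow, map_pow, map_neg, map_neg, map_one, map_one]
              ring
      intro n
      rw [h4, PowerSeries.coeff_C_mul]
      intro ξ hξ
      rw [MvPolynomial.coeff_C_mul] at hξ
      exact hfm2 n ξ (right_ne_zero_of_mul hξ)
    · rw [RingHom.map_det]
      have : (PowerSeries.constantCoeff (R := PR V)).mapMatrix (N1 (Cx σ τ s)) = 1 := by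
        ext i j : 1
        rw [RingHom.mapMatrix_apply, Matrix.map_apply, N1, Matrix.sub_apply, Matrix.smul_apply,
          smul_eq_mul, map_sub, map_mul, PowerSeries.constantCoeff_X, zero_mul, sub_zero,
          Matrix.one_apply, Matrix.one_apply]
        split_ifs <;> simp
      rw [this, Matrix.det_one]
  have := hG n
  rwa [Gs, PowerSeries.coeff_mk] at this

end Pool.Agent.U430.SN
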