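import Pool.Agent.U430.SN.Gauss
import Pool.Agent.H604R2.LEC.Pf

set_option autoImplicit false

/-!
The Pfaffian of the generic skew-symmetric matrix of a cubic graph with a perfect matching: only
monomials of perfect matchings occur.
-/

namespace Pool.Agent.U430.SN

open Finset PowerSeries Pool.Agent.Helper929

variable {V : Type} [Fintype V] [DecidableEq V]

abbrev PR (V : Type) : Type := MvPolynomial V ℂ

/-- all exponents that occur in the coefficients satisfy `P` -/
def Sp (P : (V →₀ ℕ) → Prop) (φ : (PR V)⟦X⟧) : Prop :=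
  ∀ n ξ, MvPolynomial.coeff ξ (PowerSeries.coeff n φ) ≠ 0 → P ξ

omit [Fintype V] [DecidableEq V] in
theorem Sp.zero (P : (V →₀ ℕ) → Prop) : Sp P 0 := by
  intro n ξ h
  simp at h

omit [Fintype V] [DecidableEq V] in
theorem Sp.add {P : (V →₀ ℕ) → Prop} {φ ψ : (PR V)⟦X⟧} (h1 : Sp P φ) (h2 : Sp P ψ) :
    Sp P (φ + ψ) := by
  intro n ξ h
  rw [map_add, MvPolynomial.coeff_add] at h
  by_cases h0 : MvPolynomial.coeff ξ (PowerSeries.coeff n φ) = 0
  · rw [h0, zero_add] at h
    exact h2 n ξ h
  · exact h1 n ξ h0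

omit [Fintype V] [DecidableEq V] in
theorem Sp.neg {P : (V →₀ ℕ) → Prop} {φ : (PR V)⟦X⟧} (h1 : Sp P φ) : Sp P (-φ) := by
  intro n ξ h
  rw [map_neg, MvPolynomial.coeff_neg, neg_ne_zero] at h
  exact h1 n ξ h

omit [Fintype V] [DecidableEq V] in
theorem Sp.sum {P : (V →₀ ℕ) → Prop} {ι : Type} (s : Finset ι) {φ : ι → (PR V)⟦X⟧}
    (h : ∀ i ∈ s, Sp P (φ i)) : Sp P (∑ i ∈ s, φ i) := by
  classical
  induction s using Finset.induction_on with
  | empty => simpa using Sp.zero P
  | insert a s ha ih =>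
    rw [Finset.sum_insert ha]
    exact (h a (mem_insert_self _ _)).add (ih fun i hi => h i (mem_insert_of_mem hi))

omit [Fintype V] [DecidableEq V] in
theorem Sp.const_mul {P : (V →₀ ℕ) → Prop} {φ : (PR V)⟦X⟧} (h1 : Sp P φ) (c : ℂ) :
    Sp P (PowerSeries.C (MvPolynomial.C c) * φ) := by
  intro n ξ h
  rw [PowerSeries.coeff_C_mul, MvPolynomial.coeff_C_mul] at h
  exact h1 n ξ (right_ne_zero_of_mul h)

omit [Fintype V] [DecidableEq V] in
theorem Sp.X_mul {P Q : (V →₀ ℕ) → Prop} {φ : (PR V)⟦X⟧} (h1 : Sp P φ) (a : V)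
    (hPQ : ∀ ξ, P ξ → Q (Finsupp.single a 1 + ξ)) :
    Sp Q ((X : (PR V)⟦X⟧) * (PowerSeries.C (MvPolynomial.X a) * φ)) := by
  classical
  intro n ξ h
  cases n with
  | zero =>
    rw [PowerSeries.coeff_zero_X_mul] at h
    simp at h
  | succ n =>
    rw [PowerSeries.coeff_succ_X_mul, PowerSeries.coeff_C_mul, mul_comm,
      MvPolynomial.coeff_mul_X'] at h
    split_ifs at h with hs
    · have := hPQ _ (h1 n _ h)
      have h2 : Finsupp.single a 1 + (ξ - Finsupp.single a 1) = ξ := by
        apply add_tsub_cancel_of_le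
        rw [Finsupp.single_le_iff]
        exact Nat.one_le_iff_ne_zero.2 (Finsupp.mem_support_iff.1 hs)
      rwa [h2] at this
    · exact absurd rfl h

omit [Fintype V] [DecidableEq V] in
theorem Sp.mono {P Q : (V →₀ ℕ) → Prop} {φ : (PR V)⟦X⟧} (h1 : Sp P φ) (h : ∀ ξ, P ξ → Q ξ) :
    Sp Q φ := fun n ξ hn => h ξ (h1 n ξ hn)

/-- the exponent vector of a set -/
noncomputable def ex (A : Finset V) : V →₀ ℕ := ∑ a ∈ A, Finsupp.single a 1

omit [Fintype V] in
theorem ex_apply (A : Finset V) (v : V) : ex A v = if v ∈ A then 1 else 0 := by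
  rw [ex, Finsupp.finsetSum_apply]
  simp [Finsupp.single_apply]

/-- `ξ` is the exponent vector of the `F`-part of a perfect matching of the vertex set `U` -/
def PMon (σ : Equiv.Perm V) (τ : V → V) (U : Finset V) (ξ : V →₀ ℕ) : Prop :=
  ∃ A B : Finset V, ξ = ex A ∧ (∀ b ∈ B, τ b ∈ B) ∧
    ∀ w, (if w ∈ B then 1 else 0) + (if w ∈ A then 1 else 0) + (if σ⁻¹ w ∈ A then 1 else 0) =
      if w ∈ U then 1 else 0

/-- entries of the matrix `K_M + X K_F` -/
noncomputable def Kt (σ : Equiv.Perm V) (τ : V → V) (s : V → ℂ) : Matrix V V (PR V)⟦X⟧ :=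
  Matrix.of fun a b =>
    (if b = τ a then PowerSeries.C (MvPolynomial.C (s a)) else 0) +
    ((if b = σ a then (X : (PR V)⟦X⟧) * PowerSeries.C (MvPolynomial.X a) else 0) +
    -(if a = σ b then (X : (PR V)⟦X⟧) * PowerSeries.C (MvPolynomial.X b) else 0))

omit [Fintype V] in
theorem ite_insert (A : Finset V) {a : V} (ha : a ∉ A) (x : V) :
    (if x ∈ insert a A then 1 else 0 : ℕ) = (if x = a then 1 else 0) + if x ∈ A then 1 else 0 := by
  by_cases h : x = a
  · subst h
    simp [ha]
  · simp [h]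

omit [Fintype V] in
theorem ex_insert (A : Finset V) {a : V} (ha : a ∉ A) :
    ex (insert a A) = Finsupp.single a 1 + ex A := by
  rw [ex, Finset.sum_insert ha]
  rfl

section step

variable {σ : Equiv.Perm V} {τ : V → V} (hτ : ∀ v, τ (τ v) = v) {U U' : Finset V} {a b : V}
  (hab : a ≠ b) (ha : a ∉ U') (hb : b ∉ U')
  (hU : ∀ x, (if x ∈ U then 1 else 0 : ℕ) =
    (if x = a then 1 else 0) + (if x = b then 1 else 0) + if x ∈ U' then 1 else 0)

include hτ hab ha hb hU

omit [Fintype V] in
theorem step_M (h : b = τ a) {ξ : V →₀ ℕ} (hξ : PMon σ τ U' ξ) : PMon σ τ U ξ := by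
  obtain ⟨A, B, h1, h2, h3⟩ := hξ
  have hbB : b ∉ B := by
    intro hh
    have := h3 b
    rw [if_pos hh, if_neg hb] at this
    omega
  have haB : a ∉ insert b B := by
    intro hh
    rcases mem_insert.1 hh with hh | hh
    · exact hab hh
    have := h3 a
    rw [if_pos hh, if_neg ha] at this
    omega
  refine ⟨A, insert a (insert b B), h1, ?_, ?_⟩
  · intro x hx
    rcases mem_insert.1 hx with hx | hx
    · rw [hx, ← h]; simp
    rcases mem_insert.1 hx with hx | hx
    · rw [hx, h, hτ]; simp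
    · exact mem_insert_of_mem (mem_insert_of_mem (h2 x hx))
  · intro w
    rw [ite_insert _ haB, ite_insert _ hbB, hU, ← h3 w]
    ring

omit [Fintype V] in
theorem step_F1 (h : b = σ a) {ξ : V →₀ ℕ} (hξ : PMon σ τ U' ξ) :
    PMon σ τ U (Finsupp.single a 1 + ξ) := by
  obtain ⟨A, B, h1, h2, h3⟩ := hξ
  have haA : a ∉ A := by
    intro hh
    have := h3 a
    rw [if_pos hh, if_neg ha] at this
    omega
  refine ⟨insert a A, B, by rw [h1, ex_insert A haA], h2, ?_⟩
  intro w
  rw [ite_insert _ haA, ite_insert _ haA, hU, ← h3 w]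
  have : (if σ⁻¹ w = a then 1 else 0 : ℕ) = if w = b then 1 else 0 := by
    have : σ⁻¹ w = a ↔ w = b := by
      rw [h, Equiv.Perm.inv_eq_iff_eq]
    simp only [this]
  rw [this]
  ring

omit [Fintype V] in
theorem step_F2 (h : a = σ b) {ξ : V →₀ ℕ} (hξ : PMon σ τ U' ξ) :
    PMon σ τ U (Finsupp.single b 1 + ξ) := by
  obtain ⟨A, B, h1, h2, h3⟩ := hξ
  have hbA : b ∉ A := by
    intro hh
    have := h3 b
    rw [if_pos hh, if_neg hb] at this
    omega
  refine ⟨insert b A, B, by rw [h1, ex_insert A hbA], h2, ?_⟩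
  intro w
  rw [ite_insert _ hbA, ite_insert _ hbA, hU, ← h3 w]
  have : (if σ⁻¹ w = b then 1 else 0 : ℕ) = if w = a then 1 else 0 := by
    have : σ⁻¹ w = b ↔ w = a := by
      rw [h, Equiv.Perm.inv_eq_iff_eq]
    simp only [this]
  rw [this]
  ring

end step

omit [Fintype V] in
theorem pf_sp {σ : Equiv.Perm V} {τ : V → V} (hτ : ∀ v, τ (τ v) = v) (s : V → ℂ) :
    ∀ (n : ℕ) (v : Fin n → V) (_ : Function.Injective v),
      Sp (PMon σ τ (univ.image v)) (pf n (Matrix.of fun i j => Kt σ τ s (v i) (v j)))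
  | 0, v, _ => by
    intro n ξ h
    rw [pf] at h
    refine ⟨∅, ∅, ?_, by simp, by simp⟩
    rw [ex, Finset.sum_empty]
    rw [PowerSeries.coeff_one] at h
    split_ifs at h
    · rw [MvPolynomial.coeff_one] at h
      by_contra hne
      rw [if_neg (Ne.symm hne)] at h
      exact h rfl
    · simp at h
  | 1, v, _ => by
    rw [pf]
    exact Sp.zero _
  | (n + 2), v, hv => by
    rw [pf]
    refine Sp.sum _ fun j _ => ?_
    set w : Fin n → V := fun k => v (j.succAbove k).succ with hw
    have hwinj : Function.Injective w := by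
      intro a b hab
      exact Fin.succAbove_right_injective (Fin.succ_injective _ (hv hab))
    have ih := pf_sp (σ := σ) hτ s n w hwinj
    have hsub : (Matrix.of fun i j => Kt σ τ s (v i) (v j)).submatrix
        (fun k => (j.succAbove k).succ) (fun k => (j.succAbove k).succ) =
        Matrix.of fun i j => Kt σ τ s (w i) (w j) := rfl
    rw [hsub]
    set φ := pf n (Matrix.of fun i j => Kt σ τ s (w i) (w j)) with hφ
    have hab : v 0 ≠ v j.succ := by
      intro h
      exact absurd (hv h) (Fin.succ_ne_zero j).symm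
    have ha : v 0 ∉ univ.image w := by
      rw [mem_image]
      rintro ⟨k, -, hk⟩
      exact absurd (hv hk) (Fin.succ_ne_zero _)
    have hb : v j.succ ∉ univ.image w := by
      rw [mem_image]
      rintro ⟨k, -, hk⟩
      exact absurd (Fin.succ_injective _ (hv hk)) (Fin.succAbove_ne j k)
    have hU : ∀ x, (if x ∈ univ.image v then 1 else 0 : ℕ) =
        (if x = v 0 then 1 else 0) + (if x = v j.succ then 1 else 0) +
          if x ∈ univ.image w then 1 else 0 := by
      intro x
      have h1 : univ.image v = insert (v 0) (insert (v j.succ) (univ.image w)) := by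
        ext y
        simp only [mem_image, mem_univ, true_and, mem_insert]
        constructor
        · rintro ⟨i, rfl⟩
          refine Fin.cases ?_ (fun i => ?_) i
          · exact Or.inl rfl
          · by_cases hij : i = j
            · exact Or.inr (Or.inl (by rw [hij]))
            · obtain ⟨k, hk⟩ := Fin.exists_succAbove_eq hij
              exact Or.inr (Or.inr ⟨k, by rw [hw]; simp only [hk]⟩)
        · rintro (rfl | rfl | ⟨k, rfl⟩)
          · exact ⟨0, rfl⟩
          · exact ⟨_, rfl⟩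
          · exact ⟨_, rfl⟩
      rw [h1, ite_insert _ (by rw [mem_insert]; tauto), ite_insert _ hb]
      ring
    have key : Sp (PMon σ τ (univ.image v)) (Kt σ τ s (v 0) (v j.succ) * φ) := by
      rw [Kt, Matrix.of_apply, add_mul, add_mul, neg_mul]
      refine Sp.add ?_ (Sp.add ?_ (Sp.neg ?_))
      · split_ifs with h
        · exact (ih.mono fun ξ hξ => step_M hτ hab ha hb hU h hξ).const_mul _
        · rw [zero_mul]; exact Sp.zero _
      · split_ifs with h
        · rw [mul_assoc]
          exact ih.X_mul _ fun ξ hξ => step_F1 hτ hab ha hb hU h hξ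
        · rw [zero_mul]; exact Sp.zero _
      · split_ifs with h
        · rw [mul_assoc]
          exact ih.X_mul _ fun ξ hξ => step_F2 hτ hab ha hb hU h hξ
        · rw [zero_mul]; exact Sp.zero _
    rw [Matrix.of_apply]
    rcases neg_one_pow_eq_or (PR V)⟦X⟧ (j : ℕ) with h | h
    · rw [h, one_mul]
      exact key
    · rw [h, neg_one_mul, neg_mul]
      exact key.neg

end Pool.Agent.U430.SN
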