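import Mathlib
import Pool.Agent.R708.PS.Jacobi

set_option autoImplicit false

/-!
A formal Gaussian functional on polynomials in the variables `Z_v`, `Y_v`, Wick's formula, and the
identity `(sum of the moments of a quadratic form) * det (1 - X C) = 1`.
-/

namespace Pool.Agent.U430.SN

open Finset

variable {V : Type} [Fintype V] [DecidableEq V]

/-- value of the functional on a monomial: `Z^a Y^b` has value `a!` if `a = b` and `0` otherwise -/
def wt (m : V ⊕ V →₀ ℕ) : ℕ :=
  if ∀ i : V, m (Sum.inl i) = m (Sum.inr i) then ∏ i : V, (m (Sum.inl i)).factorial else 0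

theorem wt_step (m : V ⊕ V →₀ ℕ) (j : V) :
    wt (Finsupp.single (Sum.inr j) 1 + m) =
      m (Sum.inl j) * wt (m - Finsupp.single (Sum.inl j) 1) := by
  unfold wt
  have e1 : ∀ i : V, (Finsupp.single (Sum.inr j : V ⊕ V) 1 + m : V ⊕ V →₀ ℕ) (Sum.inl i) =
      m (Sum.inl i) := by
    intro i; simp
  have e2 : ∀ i : V, (Finsupp.single (Sum.inr j : V ⊕ V) 1 + m : V ⊕ V →₀ ℕ) (Sum.inr i) =
      (if i = j then 1 else 0) + m (Sum.inr i) := by
    intro i
    rw [Finsupp.add_apply, Finsupp.single_apply]
    congr 1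
    by_cases h : i = j
    · simp [h]
    · simp [h, Ne.symm h]
  have e3 : ∀ i : V, (m - Finsupp.single (Sum.inl j : V ⊕ V) 1 : V ⊕ V →₀ ℕ) (Sum.inl i) =
      m (Sum.inl i) - (if i = j then 1 else 0) := by
    intro i
    rw [Finsupp.tsub_apply, Finsupp.single_apply]
    congr 1
    by_cases h : i = j
    · simp [h]
    · simp [h, Ne.symm h]
  have e4 : ∀ i : V, (m - Finsupp.single (Sum.inl j : V ⊕ V) 1 : V ⊕ V →₀ ℕ) (Sum.inr i) =
      m (Sum.inr i) := by
    intro i; simp
  simp only [e1, e2, e3, e4]
  by_cases h0 : m (Sum.inl j) = 0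
  · rw [if_neg, h0, zero_mul]
    intro h
    have := h j
    rw [h0] at this
    simp at this
    omega
  · by_cases hc : ∀ i : V, m (Sum.inl i) = (if i = j then 1 else 0) + m (Sum.inr i)
    · rw [if_pos hc, if_pos]
      · rw [← Finset.mul_prod_erase univ _ (Finset.mem_univ j),
          ← Finset.mul_prod_erase univ (fun i => (m (Sum.inl i) - if i = j then 1 else 0).factorial)
            (Finset.mem_univ j), ← mul_assoc]
        congr 1
        · simp only [if_true]
          obtain ⟨a, ha⟩ := Nat.exists_eq_succ_of_ne_zero h0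
          rw [ha]
          simp [Nat.factorial_succ]
        · refine Finset.prod_congr rfl fun i hi => ?_
          rw [if_neg (Finset.ne_of_mem_erase hi)]
          rfl
      · intro i
        have := hc i
        omega
    · rw [if_neg hc, if_neg, mul_zero]
      intro h
      apply hc
      intro i
      have := h i
      by_cases hi : i = j
      · subst hi
        simp only [if_true] at this ⊢
        omega
      · simp only [if_neg hi] at this ⊢
        omega

section ring

variable {R : Type} [CommRing R]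

/-- the functional -/
noncomputable def L : MvPolynomial (V ⊕ V) R →ₗ[R] R :=
  (MvPolynomial.basisMonomials (V ⊕ V) R).constr R (fun m => ((wt m : ℕ) : R))

theorem L_monomial (m : V ⊕ V →₀ ℕ) (c : R) :
    L (MvPolynomial.monomial m c) = c * (wt m : R) := by
  have h : MvPolynomial.monomial m c = c • (MvPolynomial.basisMonomials (V ⊕ V) R) m := by
    rw [MvPolynomial.coe_basisMonomials, MvPolynomial.smul_monomial, smul_eq_mul, mul_one]
  rw [h, map_smul, L, Module.Basis.constr_basis, smul_eq_mul]

/-- Wick's formula (integration by parts) -/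
theorem wick (j : V) (p : MvPolynomial (V ⊕ V) R) :
    L (MvPolynomial.X (Sum.inr j) * p) = L (MvPolynomial.pderiv (Sum.inl j) p) := by
  induction p using MvPolynomial.induction_on' with
  | monomial m c =>
    rw [MvPolynomial.pderiv_monomial, MvPolynomial.X, MvPolynomial.monomial_mul, L_monomial,
      L_monomial, wt_step]
    push_cast
    ring
  | add p q hp hq => rw [mul_add, map_add, map_add, map_add, hp, hq]

theorem L_one : L (1 : MvPolynomial (V ⊕ V) R) = 1 := by
  have : (1 : MvPolynomial (V ⊕ V) R) = MvPolynomial.monomial 0 1 := rfl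
  rw [this, L_monomial]
  simp [wt]

/-- the quadratic form of a matrix -/
noncomputable def Phi (C : Matrix V V R) : MvPolynomial (V ⊕ V) R :=
  ∑ u, ∑ w, C u w • (MvPolynomial.X (Sum.inl u) * MvPolynomial.X (Sum.inr w))

theorem pderiv_Phi (C : Matrix V V R) (j : V) :
    MvPolynomial.pderiv (Sum.inl j) (Phi C) = ∑ w, C j w • MvPolynomial.X (Sum.inr w) := by
  unfold Phi
  rw [map_sum]
  rw [Finset.sum_eq_single j]
  · rw [map_sum]
    refine Finset.sum_congr rfl fun w _ => ?_
    rw [Derivation.map_smul, MvPolynomial.pderiv_mul, MvPolynomial.pderiv_X_self,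
      MvPolynomial.pderiv_X_of_ne (by simp), mul_zero, add_zero, one_mul]
  · intro u _ hu
    rw [map_sum]
    refine Finset.sum_eq_zero fun w _ => ?_
    rw [Derivation.map_smul, MvPolynomial.pderiv_mul, MvPolynomial.pderiv_X_of_ne (by simp [hu]),
      MvPolynomial.pderiv_X_of_ne (by simp), mul_zero, add_zero, zero_mul, smul_zero]
  · intro h
    exact absurd (Finset.mem_univ j) h

variable [Algebra ℚ R]

/-- the moments of the quadratic form -/
noncomputable def g (C : Matrix V V R) (s : ℕ) : R := ((s.factorial : ℚ)⁻¹) • L (Phi C ^ s)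

/-- the two-point functions -/
noncomputable def Y2 (C : Matrix V V R) (s : ℕ) (j i : V) : R :=
  ((s.factorial : ℚ)⁻¹) • L (MvPolynomial.X (Sum.inr j) * (MvPolynomial.X (Sum.inl i) * Phi C ^ s))

theorem fac (s : ℕ) (x : R) : (((s + 1).factorial : ℚ)⁻¹) • (((s + 1 : ℕ) : R) * x) =
    ((s.factorial : ℚ)⁻¹) • x := by
  have h : ((s + 1 : ℕ) : R) * x = ((s + 1 : ℕ) : ℚ) • x := by
    rw [Algebra.smul_def, map_natCast]
  rw [h, smul_smul]
  congr 1
  rw [Nat.factorial_succ]
  push_cast
  have h1 : (s : ℚ) + 1 ≠ 0 := by positivity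
  have h2 : (s.factorial : ℚ) ≠ 0 := by positivity
  field_simp

theorem g_zero (C : Matrix V V R) : g C 0 = 1 := by
  simp [g, L_one]

theorem Y2_zero (C : Matrix V V R) (j i : V) : Y2 C 0 j i = if j = i then 1 else 0 := by
  rw [Y2, wick]
  simp only [pow_zero, mul_one, Nat.factorial_zero, Nat.cast_one, inv_one, one_smul]
  by_cases h : j = i
  · rw [if_pos h, h, MvPolynomial.pderiv_X_self, L_one]
  · rw [if_neg h, MvPolynomial.pderiv_X_of_ne (by simpa using Ne.symm h), map_zero]

theorem Y2_succ (C : Matrix V V R) (s : ℕ) (j i : V) :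
    Y2 C (s + 1) j i = (if j = i then g C (s + 1) else 0) + ∑ w, C j w * Y2 C s w i := by
  have h1 : MvPolynomial.pderiv (Sum.inl j) (MvPolynomial.X (Sum.inl i) * Phi C ^ (s + 1)) =
      (if j = i then Phi C ^ (s + 1) else 0) +
        ∑ w, C j w • (((s + 1 : ℕ) : R) • (MvPolynomial.X (Sum.inr w) *
          (MvPolynomial.X (Sum.inl i) * Phi C ^ s))) := by
    rw [MvPolynomial.pderiv_mul, MvPolynomial.pderiv_pow, pderiv_Phi]
    congr 1
    · by_cases h : j = i
      · rw [if_pos h, h, MvPolynomial.pderiv_X_self, one_mul]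
      · rw [if_neg h, MvPolynomial.pderiv_X_of_ne (by simpa using Ne.symm h), zero_mul]
    · rw [Nat.add_sub_cancel, Finset.mul_sum, Finset.mul_sum]
      refine Finset.sum_congr rfl fun w _ => ?_
      simp only [MvPolynomial.smul_eq_C_mul, map_natCast]
      ring
  rw [Y2, wick, h1, map_add, smul_add]
  congr 1
  · by_cases h : j = i
    · rw [if_pos h, if_pos h, g]
    · rw [if_neg h, if_neg h, map_zero, smul_zero]
  · rw [map_sum, Finset.smul_sum]
    refine Finset.sum_congr rfl fun w _ => ?_
    rw [map_smul, map_smul, Y2, smul_eq_mul, smul_eq_mul, ← mul_smul_comm, fac]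

theorem g_succ (C : Matrix V V R) (s : ℕ) :
    ((s + 1 : ℕ) : R) * g C (s + 1) = ∑ u, ∑ w, C u w * Y2 C s w u := by
  have h1 : L (Phi C ^ (s + 1)) = ∑ u, ∑ w, C u w *
      L (MvPolynomial.X (Sum.inr w) * (MvPolynomial.X (Sum.inl u) * Phi C ^ s)) := by
    rw [pow_succ']
    nth_rewrite 1 [Phi]
    rw [Finset.sum_mul, map_sum]
    refine Finset.sum_congr rfl fun u _ => ?_
    rw [Finset.sum_mul, map_sum]
    refine Finset.sum_congr rfl fun w _ => ?_
    rw [smul_mul_assoc, map_smul, smul_eq_mul]
    congr 2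
    ring
  rw [g, mul_smul_comm, fac, h1, Finset.smul_sum]
  refine Finset.sum_congr rfl fun u _ => ?_
  rw [Finset.smul_sum]
  refine Finset.sum_congr rfl fun w _ => ?_
  rw [Y2, mul_smul_comm]

end ring

end Pool.Agent.U430.SN
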